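import Mathlib

set_option autoImplicit false

/-!
Residually soluble groups with the maximal condition: the reduction to groups in which every
subgroup has only soluble residually soluble proper quotients.
-/

namespace Pool.Agent.RSN

open Function

universe u v

/-- Every nontrivial element lies outside some term of the derived series. -/
def ResSol (G : Type u) [Group G] : Prop :=
  ∀ g : G, g ≠ 1 → ∃ n : ℕ, g ∉ derivedSeries G n

/-- Every residually soluble quotient by a nontrivial normal subgroup is soluble. -/
def JS (G : Type u) [Group G] : Prop :=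
  ∀ (M : Subgroup G) [M.Normal], M ≠ ⊥ → ResSol (G ⧸ M) → Group.IsSolvable (G ⧸ M)

section one

variable {G : Type u} [Group G]

/-- subgroups inherit residual solubility -/
theorem ResSol.subgroup (h : ResSol G) (L : Subgroup G) : ResSol L := by
  intro g hg
  obtain ⟨n, hn⟩ := h (g : G) (by simpa using hg)
  refine ⟨n, fun hc => hn ?_⟩
  exact map_derivedSeries_le_derivedSeries (f := L.subtype) n (Subgroup.mem_map_of_mem _ hc)

/-- the key consequence -/
theorem JS.dense (h : JS G) (M : Subgroup G) [M.Normal] (hM : M ≠ ⊥) :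
    ∃ k, ∀ j, derivedSeries G k ≤ derivedSeries G j ⊔ M := by
  set Ms : Subgroup G := ⨅ j, (derivedSeries G j ⊔ M) with hMs
  have hle : M ≤ Ms := le_iInf fun j => le_sup_right
  have : Ms.Normal := Subgroup.normal_iInf_normal fun j => inferInstance
  have hne : Ms ≠ ⊥ := by
    intro hc
    exact hM (le_bot_iff.mp (hc ▸ hle))
  have hres : ResSol (G ⧸ Ms) := by
    intro g
    induction g using QuotientGroup.induction_on with
    | H x =>
      intro hx
      have hx' : x ∉ Ms := by
        intro hc
        exact hx ((QuotientGroup.eq_one_iff x).mpr hc)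
      rw [hMs, Subgroup.mem_iInf] at hx'
      push Not at hx'
      obtain ⟨n, hn⟩ := hx'
      refine ⟨n, fun hc => hn ?_⟩
      rw [← map_derivedSeries_eq (QuotientGroup.mk'_surjective Ms) n] at hc
      obtain ⟨y, hy, hyx⟩ := hc
      have h1 : y⁻¹ * x ∈ Ms := QuotientGroup.eq.mp hyx
      have h2 : y⁻¹ * x ∈ derivedSeries G n ⊔ M := by
        rw [hMs, Subgroup.mem_iInf] at h1
        exact h1 n
      have h3 : y ∈ derivedSeries G n ⊔ M := (le_sup_left : derivedSeries G n ≤ _) hy
      simpa using mul_mem h3 h2
  have hsol := h Ms hne hres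
  obtain ⟨k, hk⟩ := hsol.solvable
  refine ⟨k, ?_⟩
  rw [← map_derivedSeries_eq (QuotientGroup.mk'_surjective Ms) k, Subgroup.map_eq_bot_iff,
    QuotientGroup.ker_mk'] at hk
  intro j
  exact hk.trans (iInf_le _ j)

/-- the derived series of a proper quotient stops -/
theorem JS.stops (h : JS G) (M : Subgroup G) [M.Normal] (hM : M ≠ ⊥) :
    ∃ k, ∀ j, k ≤ j → derivedSeries (G ⧸ M) j = derivedSeries (G ⧸ M) k := by
  obtain ⟨k, hk⟩ := h.dense M hM
  refine ⟨k, fun j hkj => le_antisymm (derivedSeries_antitone (G ⧸ M) hkj) ?_⟩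
  rw [← map_derivedSeries_eq (QuotientGroup.mk'_surjective M) k,
    ← map_derivedSeries_eq (QuotientGroup.mk'_surjective M) j]
  refine (Subgroup.map_mono (hk j)).trans ?_
  rw [Subgroup.map_sup]
  have : Subgroup.map (QuotientGroup.mk' M) M = ⊥ := by
    rw [Subgroup.map_eq_bot_iff, QuotientGroup.ker_mk']
  rw [this, sup_bot_eq]

/-- two commuting nontrivial normal subgroups force solubility -/
theorem JS.prime (h : JS G) (hres : ResSol G) (M N : Subgroup G) [M.Normal] [N.Normal]
    (hM : M ≠ ⊥) (hN : N ≠ ⊥) (hMN : ⁅M, N⁆ = ⊥) : Group.IsSolvable G := by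
  obtain ⟨k, hk⟩ := h.dense M hM
  obtain ⟨l, hl⟩ := h.dense N hN
  have key : ∀ j, derivedSeries G (max k l + 1) ≤ derivedSeries G j := by
    intro j
    have h1 : derivedSeries G (max k l) ≤ derivedSeries G j ⊔ M :=
      (derivedSeries_antitone G (le_max_left k l)).trans (hk j)
    have h2 : derivedSeries G (max k l) ≤ derivedSeries G j ⊔ N :=
      (derivedSeries_antitone G (le_max_right k l)).trans (hl j)
    rw [derivedSeries_succ]
    refine (Subgroup.commutator_mono h1 h2).trans ?_
    have h3 : Subgroup.map (QuotientGroup.mk' (derivedSeries G j))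
        ⁅derivedSeries G j ⊔ M, derivedSeries G j ⊔ N⁆ = ⊥ := by
      have h4 : Subgroup.map (QuotientGroup.mk' (derivedSeries G j)) (derivedSeries G j) = ⊥ := by
        rw [Subgroup.map_eq_bot_iff, QuotientGroup.ker_mk']
      rw [Subgroup.map_commutator, Subgroup.map_sup, Subgroup.map_sup, h4, bot_sup_eq, bot_sup_eq,
        ← Subgroup.map_commutator, hMN, Subgroup.map_bot]
    rwa [Subgroup.map_eq_bot_iff, QuotientGroup.ker_mk'] at h3
  refine ⟨⟨max k l + 1, ?_⟩⟩
  rw [Subgroup.eq_bot_iff_forall]
  intro x hx
  by_contra hx1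
  obtain ⟨n, hn⟩ := hres x hx1
  exact hn (key n hx)

/-- a nontrivial soluble normal subgroup forces solubility -/
theorem JS.radical (h : JS G) (hres : ResSol G) (A : Subgroup G) [A.Normal] (hA : A ≠ ⊥)
    (hs : Group.IsSolvable A) : Group.IsSolvable G := by
  classical
  -- the derived series of `A`, inside `G`
  obtain ⟨n, hn⟩ := hs.solvable
  have hD : ∀ m, ((derivedSeries A m).map A.subtype).Normal := by
    intro m
    induction m with
    | zero =>
      rw [derivedSeries_zero, ← MonoidHom.range_eq_map, Subgroup.range_subtype]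
      infer_instance
    | succ m ih =>
      rw [derivedSeries_succ, Subgroup.map_commutator]
      have := ih
      infer_instance
  have hex : ∃ m, (derivedSeries A m).map A.subtype = ⊥ := ⟨n, by rw [hn, Subgroup.map_bot]⟩
  have hm := Nat.find_spec hex
  have hmin := fun m' => Nat.find_min hex (m := m')
  generalize Nat.find hex = m at hm hmin
  cases m with
  | zero =>
    rw [derivedSeries_zero, ← MonoidHom.range_eq_map, Subgroup.range_subtype] at hm
    exact absurd hm hA
  | succ m =>
    have hne := hmin m (Nat.lt_succ_self m)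
    have := hD m
    rw [derivedSeries_succ, Subgroup.map_commutator] at hm
    exact h.prime hres _ _ hne hne hm

end one

end Pool.Agent.RSN
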