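import Pool.Agent.RSN.Ord

set_option autoImplicit false

/-!
The largest proper convex subgroup of a finitely generated normal subgroup of a bi-ordered group,
with the action on the quotient.
-/

namespace Pool.Agent.RSN

open Function

universe u

variable {G : Type u} [Group G] [LinearOrder G] [MulLeftMono G] [MulRightMono G]

/-- one step of the chain -/
theorem exists_step (H : Subgroup G) (hn : H.Normal) (hfg : H.FG) (hne : H ≠ ⊥) :
    ∃ K : Subgroup G, K.Normal ∧ K < H ∧ (∀ x ∈ H, ∀ n : ℕ, 0 < n → x ^ n ∈ K → x ∈ K) ∧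
      ⁅H, H⁆ ≤ K ∧ ∀ c ∈ commutator G, ∀ x ∈ H, c * x * c⁻¹ * x⁻¹ ∈ K := by
  obtain ⟨a, haH, ha, hcof⟩ := exists_cofinal H hfg hne
  obtain ⟨τ, hmul, hpos, hτa, huniq⟩ := exists_tau H haH ha hcof
  have hτ1 : τ 1 = 0 := by
    have := hmul 1 (one_mem H) 1 (one_mem H)
    rw [mul_one] at this
    linarith
  have hτinv : ∀ y ∈ H, τ y⁻¹ = - τ y := by
    intro y hy
    have := hmul y hy y⁻¹ (inv_mem hy)
    rw [mul_inv_cancel, hτ1] at this
    linarith
  have hτpow : ∀ y ∈ H, ∀ n : ℕ, τ (y ^ n) = n * τ y := by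
    intro y hy n
    induction n with
    | zero => simp [hτ1]
    | succ n ih =>
      rw [pow_succ, hmul _ (pow_mem hy n) _ hy, ih]
      push_cast
      ring
  have hconj : ∀ g : G, ∀ x ∈ H, g * x * g⁻¹ ∈ H := fun g x hx => hn.conj_mem x hx g
  -- the action
  have hact : ∀ g : G, ∀ x ∈ H, τ (g * x * g⁻¹) = τ (g * a * g⁻¹) * τ x := by
    intro g x hx
    refine huniq (fun y => τ (g * y * g⁻¹)) ?_ ?_ x hx
    · intro y hy z hz
      change τ (g * (y * z) * g⁻¹) = τ (g * y * g⁻¹) + τ (g * z * g⁻¹)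
      rw [← hmul _ (hconj g y hy) _ (hconj g z hz)]
      congr 1
      group
    · intro y hy h1
      refine hpos _ (hconj g y hy) ?_
      have h2 : g * 1 * g⁻¹ ≤ g * y * g⁻¹ := mul_le_mul_left (mul_le_mul_right h1 g) _
      simpa using h2
  set l : G → ℝ := fun g => τ (g * a * g⁻¹) with hl
  have hlmul : ∀ g h : G, l (g * h) = l g * l h := by
    intro g h
    have h1 : (g * h) * a * (g * h)⁻¹ = g * (h * a * h⁻¹) * g⁻¹ := by group
    change τ ((g * h) * a * (g * h)⁻¹) = τ (g * a * g⁻¹) * τ (h * a * h⁻¹)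
    rw [h1, hact g _ (hconj h a haH)]
  have hl1 : l 1 = 1 := by
    change τ (1 * a * 1⁻¹) = 1
    rw [one_mul, inv_one, mul_one, hτa]
  have hlne : ∀ g, l g ≠ 0 := by
    intro g h
    have h1 := hlmul g g⁻¹
    rw [mul_inv_cancel, hl1, h, zero_mul] at h1
    exact one_ne_zero h1
  let L : G →* ℝ := { toFun := l, map_one' := hl1, map_mul' := hlmul }
  have hlc : ∀ c ∈ commutator G, l c = 1 := by
    intro c hc
    have h1 : commutator G ≤ (L.toHomUnits).ker := by
      rw [commutator_def, Subgroup.commutator_le]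
      intro g _ h _
      rw [MonoidHom.mem_ker, map_commutatorElement]
      exact commutatorElement_eq_one_iff_mul_comm.mpr (mul_comm _ _)
    have h2 : L.toHomUnits c = 1 := h1 hc
    have h3 := congrArg Units.val h2
    simpa [L] using h3
  -- the subgroup
  let K : Subgroup G :=
    { carrier := {x | x ∈ H ∧ τ x = 0}
      mul_mem' := by
        rintro x y ⟨hx, hx0⟩ ⟨hy, hy0⟩
        exact ⟨mul_mem hx hy, by rw [hmul x hx y hy, hx0, hy0, add_zero]⟩
      one_mem' := ⟨one_mem H, hτ1⟩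
      inv_mem' := by
        rintro x ⟨hx, hx0⟩
        exact ⟨inv_mem hx, by rw [hτinv x hx, hx0, neg_zero]⟩ }
  have hK : ∀ x, x ∈ K ↔ x ∈ H ∧ τ x = 0 := fun x => Iff.rfl
  refine ⟨K, ⟨fun x hx g => ?_⟩, lt_of_le_of_ne (fun x hx => hx.1) ?_, ?_, ?_, ?_⟩
  · rw [hK] at hx ⊢
    exact ⟨hconj g x hx.1, by rw [hact g x hx.1, hx.2, mul_zero]⟩
  · intro h
    have h1 : a ∈ K := by rw [h]; exact haH
    have h2 := ((hK a).mp h1).2
    rw [hτa] at h2
    exact one_ne_zero h2
  · intro x hx n hn0 hxn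
    rw [hK] at hxn ⊢
    refine ⟨hx, ?_⟩
    have h1 := hxn.2
    rw [hτpow x hx] at h1
    have h2 : (n : ℝ) ≠ 0 := by exact_mod_cast hn0.ne'
    exact (mul_eq_zero.mp h1).resolve_left h2
  · rw [Subgroup.commutator_le]
    intro x hx y hy
    rw [hK, commutatorElement_def]
    refine ⟨mul_mem (mul_mem (mul_mem hx hy) (inv_mem hx)) (inv_mem hy), ?_⟩
    rw [hmul _ (mul_mem (mul_mem hx hy) (inv_mem hx)) _ (inv_mem hy),
      hmul _ (mul_mem hx hy) _ (inv_mem hx), hmul x hx y hy, hτinv x hx, hτinv y hy]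
    ring
  · intro c hc x hx
    rw [hK]
    refine ⟨mul_mem (hconj c x hx) (inv_mem hx), ?_⟩
    rw [hmul _ (hconj c x hx) _ (inv_mem hx), hact c x hx, hτinv x hx]
    have : τ (c * a * c⁻¹) = 1 := hlc c hc
    rw [this]
    ring

end Pool.Agent.RSN
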