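import Pool.Agent.RSN.Section
import Pool.Agent.RSN.Step

set_option autoImplicit false

/-!
In a soluble group with max, a descending chain of normal subgroups has torsion factors from some
point on; the chain of convex subgroups.
-/

namespace Pool.Agent.RSN

open Subgroup

universe u

/-- the abelian case, for submodules -/
theorem chain_torsion_add {M : Type u} [AddCommGroup M] [Module.Finite ℤ M]
    (S : ℕ → Submodule ℤ M) (hS : Antitone S) :
    ∃ n₀, ∀ n ≥ n₀, ∀ x ∈ S n, ∃ e : ℕ, 0 < e ∧ e • x ∈ S (n + 1) := by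
  have hmin : ∃ n₀, ∀ n ≥ n₀, Module.finrank ℤ (S (n + 1)) = Module.finrank ℤ (S n) := by
    have hr : Antitone fun n => Module.finrank ℤ (S n) := fun a b h =>
      Submodule.finrank_mono (hS h)
    obtain ⟨n₀, hn₀⟩ : ∃ n₀, ∀ n, Module.finrank ℤ (S n₀) ≤ Module.finrank ℤ (S n) := by
      obtain ⟨r, ⟨n₀, hr1⟩, hr2⟩ := WellFounded.has_min Nat.lt_wfRel.wf
        (Set.range fun n => Module.finrank ℤ (S n)) ⟨_, 0, rfl⟩
      refine ⟨n₀, fun n => ?_⟩
      have h1 := hr2 (Module.finrank ℤ (S n)) ⟨n, rfl⟩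
      have h2 : ¬ Module.finrank ℤ (S n) < r := h1
      have h3 : Module.finrank ℤ (S n₀) = r := hr1
      omega
    refine ⟨n₀, fun n hn => le_antisymm (hr (Nat.le_succ n)) ?_⟩
    exact (hr hn).trans (hn₀ (n + 1))
  obtain ⟨n₀, hn₀⟩ := hmin
  refine ⟨n₀, fun n hn x hx => ?_⟩
  have hle : S (n + 1) ≤ S n := hS (Nat.le_succ n)
  have h1 := ((S (n + 1)).submoduleOf (S n)).finrank_quotient_add_finrank
  have h2 : Module.finrank ℤ ((S (n + 1)).submoduleOf (S n)) = Module.finrank ℤ (S (n + 1)) :=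
    (Submodule.submoduleOfEquivOfLe hle).finrank_eq
  have h3 : Module.finrank ℤ (S n ⧸ (S (n + 1)).submoduleOf (S n)) = 0 := by
    have := hn₀ n hn
    omega
  rw [Module.finrank_eq_zero_iff_isTorsion] at h3
  obtain ⟨a, ha⟩ := @h3 (Submodule.Quotient.mk ⟨x, hx⟩)
  have ha0 : (a : ℤ) ≠ 0 := nonZeroDivisors.ne_zero a.2
  have ha1 : (a : ℤ) • x ∈ S (n + 1) := by
    have h4 : (Submodule.Quotient.mk ((a : ℤ) • (⟨x, hx⟩ : S n)) :
        S n ⧸ (S (n + 1)).submoduleOf (S n)) = 0 := ha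
    rw [Submodule.Quotient.mk_eq_zero] at h4
    exact h4
  refine ⟨(a : ℤ).natAbs, Int.natAbs_pos.mpr ha0, ?_⟩
  rcases Int.natAbs_eq (a : ℤ) with h | h
  · rw [h] at ha1
    rwa [natCast_zsmul] at ha1
  · rw [h, neg_smul, Submodule.neg_mem_iff, natCast_zsmul] at ha1
    exact ha1

/-- the abelian case -/
theorem chain_torsion_comm {A : Type u} [CommGroup A] (hfg : Group.FG A) (B : ℕ → Subgroup A)
    (hB : Antitone B) :
    ∃ n₀, ∀ n ≥ n₀, ∀ x ∈ B n, ∃ e : ℕ, 0 < e ∧ x ^ e ∈ B (n + 1) := by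
  have hfin : Module.Finite ℤ (Additive A) := Module.Finite.iff_addGroup_fg.mpr inferInstance
  obtain ⟨n₀, hn₀⟩ := chain_torsion_add (M := Additive A)
    (fun n => AddSubgroup.toIntSubmodule (Subgroup.toAddSubgroup (B n)))
    (fun a b h x hx => hB h hx)
  exact ⟨n₀, fun n hn x hx => hn₀ n hn (Additive.ofMul x) hx⟩

theorem max_of_surjective {G S : Type u} [Group G] [Group S] (hmax : ∀ H : Subgroup G, H.FG)
    (f : G →* S) (hf : Function.Surjective f) : ∀ L : Subgroup S, L.FG := fun L =>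
  section_max hmax (H := ⊤) (f.comp (⊤ : Subgroup G).subtype)
    (fun s => by obtain ⟨g, rfl⟩ := hf s; exact ⟨⟨g, trivial⟩, rfl⟩) L

theorem chain_torsion_aux (d : ℕ) : ∀ (G : Type u) [Group G], (∀ H : Subgroup G, H.FG) →
    derivedSeries G d = ⊥ → ∀ (C : ℕ → Subgroup G), Antitone C → (∀ n, (C n).Normal) →
    ∃ n₀, ∀ n ≥ n₀, ∀ x ∈ C n, ∃ e : ℕ, 0 < e ∧ x ^ e ∈ C (n + 1) := by
  induction d with
  | zero =>
    intro G _ hmax hd C hC hn
    refine ⟨0, fun n _ x _ => ⟨1, one_pos, ?_⟩⟩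
    have hx : x ∈ (⊤ : Subgroup G) := mem_top x
    rw [← derivedSeries_zero, hd, mem_bot] at hx
    rw [hx, one_pow]
    exact one_mem _
  | succ d ih =>
    intro G _ hmax hd C hC hn
    set A := derivedSeries G d with hA
    have hAA : ⁅A, A⁆ = ⊥ := by rw [← hd, derivedSeries_succ]
    -- the quotient
    have hq : derivedSeries (G ⧸ A) d = ⊥ := by
      rw [← map_derivedSeries_eq (QuotientGroup.mk'_surjective A) d, Subgroup.map_eq_bot_iff,
        QuotientGroup.ker_mk']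
    obtain ⟨n₁, hn₁⟩ := ih (G ⧸ A) (max_of_surjective hmax _ (QuotientGroup.mk'_surjective A)) hq
      (fun n => (C n).map (QuotientGroup.mk' A)) (fun a b h => map_mono (hC h))
      (fun n => (hn n).map _ (QuotientGroup.mk'_surjective A))
    -- the kernel
    let iA : CommGroup A := { (inferInstance : Group A) with
      mul_comm := fun a b => Subtype.ext (by
        have h := commutator_eq_bot_iff_le_centralizer.mp hAA a.2
        exact ((mem_centralizer_iff.mp h) b b.2).symm) }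
    obtain ⟨n₂, hn₂⟩ := @chain_torsion_comm A iA ((Group.fg_iff_subgroup_fg A).mpr (hmax A))
      (fun n => (C n).comap A.subtype) (fun a b h => comap_mono (hC h))
    refine ⟨max n₁ n₂, fun n hn' x hx => ?_⟩
    obtain ⟨e, he, c, hc, hce⟩ := hn₁ n (le_trans (le_max_left _ _) hn')
      (QuotientGroup.mk' A x) (mem_map_of_mem _ hx)
    rw [← map_pow] at hce
    have ha : c⁻¹ * x ^ e ∈ A := QuotientGroup.eq.mp hce
    have hcn : c ∈ C n := hC (Nat.le_succ n) hc
    have ha' : c⁻¹ * x ^ e ∈ C n := mul_mem (inv_mem hcn) (pow_mem hx e)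
    obtain ⟨e', he', hee⟩ := hn₂ n (le_trans (le_max_right _ _) hn') ⟨c⁻¹ * x ^ e, ha⟩ ha'
    have hee' : (c⁻¹ * x ^ e) ^ e' ∈ C (n + 1) := hee
    refine ⟨e * e', Nat.mul_pos he he', ?_⟩
    have := hn (n + 1)
    have hc' : (QuotientGroup.mk c : G ⧸ C (n + 1)) = 1 := (QuotientGroup.eq_one_iff _).mpr hc
    rw [← QuotientGroup.eq_one_iff] at hee' ⊢
    rw [QuotientGroup.mk_pow, QuotientGroup.mk_mul, QuotientGroup.mk_inv, hc', inv_one, one_mul,
      ← QuotientGroup.mk_pow, ← pow_mul] at hee'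
    exact hee'

/-- soluble groups with max: chains of normal subgroups -/
theorem chain_torsion {G : Type u} [Group G] (hmax : ∀ H : Subgroup G, H.FG)
    (hs : Group.IsSolvable G) (C : ℕ → Subgroup G) (hC : Antitone C) (hn : ∀ n, (C n).Normal) :
    ∃ n₀, ∀ n ≥ n₀, ∀ x ∈ C n, ∃ e : ℕ, 0 < e ∧ x ^ e ∈ C (n + 1) := by
  obtain ⟨d, hd⟩ := hs.solvable
  exact chain_torsion_aux d G hmax hd C hC hn

/-- the chain of convex subgroups of an insoluble bi-ordered group with max -/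
theorem exists_chain {G : Type u} [Group G] [LinearOrder G] [MulLeftMono G] [MulRightMono G]
    (hmax : ∀ H : Subgroup G, H.FG) (hns : ¬ Group.IsSolvable G) :
    ∃ C : ℕ → Subgroup G, C 0 = ⊤ ∧ (∀ n, (C n).Normal) ∧ (∀ n, C (n + 1) < C n) ∧
      (∀ n, ∀ x ∈ C n, ∀ m : ℕ, 0 < m → x ^ m ∈ C (n + 1) → x ∈ C (n + 1)) ∧
      ∀ n, ∀ c ∈ commutator G, ∀ x ∈ C n, c * x * c⁻¹ * x⁻¹ ∈ C (n + 1) := by
  classical
  let next : {K : Subgroup G // K.Normal} → {K : Subgroup G // K.Normal} := fun K =>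
    if h : K.1 ≠ ⊥ then ⟨(exists_step K.1 K.2 (hmax K.1) h).choose,
      (exists_step K.1 K.2 (hmax K.1) h).choose_spec.1⟩ else K
  have hnext : ∀ K : {K : Subgroup G // K.Normal}, K.1 ≠ ⊥ → (next K).1 < K.1 ∧
      (∀ x ∈ K.1, ∀ n : ℕ, 0 < n → x ^ n ∈ (next K).1 → x ∈ (next K).1) ∧
      ⁅K.1, K.1⁆ ≤ (next K).1 ∧
      ∀ c ∈ commutator G, ∀ x ∈ K.1, c * x * c⁻¹ * x⁻¹ ∈ (next K).1 := by
    intro K h
    have h1 : (next K).1 = (exists_step K.1 K.2 (hmax K.1) h).choose := by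
      simp only [next, dif_pos h]
    rw [h1]
    exact (exists_step K.1 K.2 (hmax K.1) h).choose_spec.2
  have hnext' : ∀ K : {K : Subgroup G // K.Normal}, ⁅K.1, K.1⁆ ≤ (next K).1 := by
    intro K
    by_cases h : K.1 ≠ ⊥
    · exact (hnext K h).2.2.1
    · push Not at h
      rw [h, commutator_bot_left]
      exact bot_le
  let D : ℕ → {K : Subgroup G // K.Normal} := fun n => next^[n] ⟨⊤, inferInstance⟩
  have hDs : ∀ n, D (n + 1) = next (D n) := fun n => Function.iterate_succ_apply' _ _ _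
  have hder : ∀ n, derivedSeries G n ≤ (D n).1 := by
    intro n
    induction n with
    | zero => exact le_top
    | succ n ih =>
      rw [derivedSeries_succ, hDs]
      exact (commutator_mono ih ih).trans (hnext' (D n))
  have hDne : ∀ n, (D n).1 ≠ ⊥ := by
    intro n h
    have h1 := hder n
    rw [h, le_bot_iff] at h1
    exact hns ⟨⟨n, h1⟩⟩
  refine ⟨fun n => (D n).1, rfl, fun n => (D n).2, fun n => ?_, fun n => ?_, fun n => ?_⟩
  · change (D (n + 1)).1 < (D n).1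
    rw [hDs]
    exact (hnext (D n) (hDne n)).1
  · change ∀ x ∈ (D n).1, ∀ m : ℕ, 0 < m → x ^ m ∈ (D (n + 1)).1 → x ∈ (D (n + 1)).1
    rw [hDs]
    exact (hnext (D n) (hDne n)).2.1
  · change ∀ c ∈ commutator G, ∀ x ∈ (D n).1, c * x * c⁻¹ * x⁻¹ ∈ (D (n + 1)).1
    rw [hDs]
    exact (hnext (D n) (hDne n)).2.2.2

end Pool.Agent.RSN
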