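import Pool.Agent.RSN.Periodic

set_option autoImplicit false

/-!
Finite 2-groups acting on a group with involutions fix an involution, provided products of two
involutions have finite order.
-/

namespace Pool.Agent.RSN

open Function

universe u

variable {G : Type u} [Group G]

/-- a finite 2-subgroup centralises an involution of a normal subgroup which has involutions -/
theorem exists_fixed (hd : ∀ u v : G, u ^ 2 = 1 → v ^ 2 = 1 → IsOfFinOrder (u * v))
    (N : Subgroup G) [N.Normal] {u : G} (huN : u ∈ N) (hu1 : u ≠ 1) (hu2 : u ^ 2 = 1) (n : ℕ) :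
    ∀ S : Subgroup G, Nat.card S = 2 ^ n →
      ∃ w ∈ N, w ≠ 1 ∧ w ^ 2 = 1 ∧ ∀ s ∈ S, s * w = w * s := by
  induction n with
  | zero =>
    intro S hS
    refine ⟨u, huN, hu1, hu2, fun s hs => ?_⟩
    have h1 : S = ⊥ := Subgroup.card_eq_one.mp (by simpa using hS)
    rw [h1, Subgroup.mem_bot] at hs
    rw [hs, one_mul, mul_one]
  | succ n ih =>
    intro S hS
    have hfin : Finite S := Nat.finite_of_card_ne_zero (by rw [hS]; positivity)
    have : Fact (Nat.Prime 2) := ⟨Nat.prime_two⟩
    obtain ⟨K, hK⟩ := Sylow.exists_subgroup_card_pow_prime (G := S) 2 (n := n)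
      (by rw [hS]; exact pow_dvd_pow 2 (Nat.le_succ n))
    have hidx : K.index = 2 := by
      have h1 := K.card_mul_index
      rw [hK, hS, pow_succ] at h1
      exact Nat.eq_of_mul_eq_mul_left (by positivity) h1
    have hKc : Nat.card (K.map S.subtype) = 2 ^ n := by
      rw [← hK]
      exact (Nat.card_congr (K.equivMapOfInjective S.subtype S.subtype_injective).toEquiv).symm
    obtain ⟨w, hwN, hw1, hw2, hwc⟩ := ih (K.map S.subtype) hKc
    have hwc' : ∀ k ∈ K, (k : G) * w = w * k := fun k hk =>
      hwc k (Subgroup.mem_map_of_mem S.subtype hk)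
    -- an element outside `K`
    have hne : K ≠ ⊤ := by
      intro h
      rw [h, Subgroup.index_top] at hidx
      omega
    obtain ⟨a, ha⟩ : ∃ a : S, a ∉ K := by
      by_contra hc
      push Not at hc
      exact hne ((Subgroup.eq_top_iff' K).mpr hc)
    have haa : (a : G) * a * w = w * (a * a) := by
      have := hwc' (a * a) (Subgroup.mul_self_mem_of_index_two hidx a)
      simpa using this
    obtain ⟨z, hz, hz1, hz2, hz3⟩ := fixed_involution hd (a : G) w hw1 hw2 haa
    have hKn : K.Normal := Subgroup.normal_of_index_eq_two hidx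
    -- `z` lies in `N` and centralises `K`
    have hzN : z ∈ N := by
      have hle : Subgroup.closure ({w, (a : G)⁻¹ * w * a} : Set G) ≤ N := by
        rw [Subgroup.closure_le]
        rintro x (rfl | rfl)
        · exact hwN
        · have := (inferInstance : N.Normal).conj_mem w hwN (a : G)⁻¹
          rwa [inv_inv] at this
      exact hle hz
    have hzK : ∀ k ∈ K, (k : G) * z = z * k := by
      intro k hk
      have hle : Subgroup.closure ({w, (a : G)⁻¹ * w * a} : Set G) ≤
          Subgroup.centralizer ({(k : G)} : Set G) := by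
        rw [Subgroup.closure_le]
        rintro x (rfl | rfl)
        · exact Subgroup.mem_centralizer_singleton_iff.mpr (hwc' k hk).symm
        · refine Subgroup.mem_centralizer_singleton_iff.mpr ?_
          have h1 := hwc' (a * k * a⁻¹) (hKn.conj_mem k hk a)
          have h2 : (a : G) * k * (a : G)⁻¹ * w = w * ((a : G) * k * (a : G)⁻¹) := by
            simpa using h1
          calc (a : G)⁻¹ * w * a * k = (a : G)⁻¹ * (w * ((a : G) * k * (a : G)⁻¹)) * a := by group
            _ = (a : G)⁻¹ * ((a : G) * k * (a : G)⁻¹ * w) * a := by rw [h2]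
            _ = (k : G) * ((a : G)⁻¹ * w * a) := by group
      exact (Subgroup.mem_centralizer_singleton_iff.mp (hle hz)).symm
    refine ⟨z, hzN, hz1, hz2, fun s hs => ?_⟩
    by_cases hsK : (⟨s, hs⟩ : S) ∈ K
    · exact hzK ⟨s, hs⟩ hsK
    · have h1 : a⁻¹ * ⟨s, hs⟩ ∈ K := by
        rw [Subgroup.mul_mem_iff_of_index_two hidx, inv_mem_iff]
        exact ⟨fun h => absurd h ha, fun h => absurd h hsK⟩
      have h2 := hzK _ h1
      have h3 : (a : G)⁻¹ * s * z = z * ((a : G)⁻¹ * s) := by simpa using h2
      calc s * z = (a : G) * ((a : G)⁻¹ * s * z) := by group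
        _ = (a : G) * (z * ((a : G)⁻¹ * s)) := by rw [h3]
        _ = ((a : G) * z) * ((a : G)⁻¹ * s) := by group
        _ = (z * (a : G)) * ((a : G)⁻¹ * s) := by rw [hz3]
        _ = z * s := by group

/-- some term of the derived series has no involutions -/
theorem no_involutions (hmax : ∀ H : Subgroup G, H.FG) (hres : ResSol G)
    (hd : ∀ u v : G, u ^ 2 = 1 → v ^ 2 = 1 → IsOfFinOrder (u * v)) :
    ∃ k, ∀ x ∈ derivedSeries G k, x ^ 2 = 1 → x = 1 := by
  obtain ⟨S, ⟨n, hS⟩, hSmax⟩ := exists_max hmax {S | ∃ n : ℕ, Nat.card S = 2 ^ n}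
    ⟨⊥, 0, by simp⟩
  have hfin : Finite S := Nat.finite_of_card_ne_zero (by rw [hS]; positivity)
  obtain ⟨k, hk⟩ := avoid hres S
  refine ⟨k, fun u huN hu2 => ?_⟩
  by_contra hu1
  obtain ⟨w, hwN, hw1, hw2, hwc⟩ := exists_fixed hd (derivedSeries G k) huN hu1 hu2 n S hS
  have hwS : w ∉ S := fun h => hw1 (hk w h hwN)
  -- the bigger 2-subgroup
  have hcomm : ∀ (s : S) (z : Subgroup.zpowers w), Commute (S.subtype s)
      ((Subgroup.zpowers w).subtype z) := by
    rintro s ⟨_, m, rfl⟩
    exact (show Commute (s : G) w from hwc s s.2).zpow_right m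
  have horder : orderOf w = 2 := orderOf_eq_prime hw2 hw1
  have hdisj : Disjoint S (Subgroup.zpowers w) := by
    rw [Subgroup.disjoint_def]
    intro x hxS hxw
    obtain ⟨m, rfl⟩ := Subgroup.mem_zpowers_iff.mp hxw
    rcases Int.even_or_odd' m with ⟨l, hl | hl⟩
    · rw [hl, zpow_mul]
      have : w ^ (2 : ℤ) = 1 := by exact_mod_cast hw2
      rw [this, one_zpow]
    · exfalso
      apply hwS
      have h2 : w ^ (2 : ℤ) = 1 := by exact_mod_cast hw2
      rw [hl, zpow_add, zpow_mul, h2, one_zpow, one_mul, zpow_one] at hxS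
      exact hxS
  have hinj : Injective (MonoidHom.noncommCoprod S.subtype (Subgroup.zpowers w).subtype hcomm) := by
    rw [MonoidHom.noncommCoprod_injective]
    refine ⟨S.subtype_injective, (Subgroup.zpowers w).subtype_injective, ?_⟩
    rwa [Subgroup.range_subtype, Subgroup.range_subtype]
  have hcard : Nat.card (S ⊔ Subgroup.zpowers w : Subgroup G) = 2 ^ (n + 1) := by
    have h1 := MonoidHom.noncommCoprod_range S.subtype (Subgroup.zpowers w).subtype hcomm
    rw [Subgroup.range_subtype, Subgroup.range_subtype] at h1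
    rw [← h1, ← Nat.card_congr (MonoidHom.ofInjective hinj).toEquiv, Nat.card_prod, hS,
      Nat.card_zpowers, horder, pow_succ]
  have heq := hSmax _ ⟨n + 1, hcard⟩ le_sup_left
  apply hwS
  rw [← heq]
  exact (le_sup_right : Subgroup.zpowers w ≤ _) (Subgroup.mem_zpowers w)

end Pool.Agent.RSN
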