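import Pool.Agent.RSN.Chain

set_option autoImplicit false

/-!
Residually (torsion-free nilpotent) groups with max.
-/

namespace Pool.Agent.RSN

open Subgroup

universe u

/-- roots are unique in a torsion-free nilpotent group -/
theorem root_unique_aux (c : ℕ) : ∀ (P : Type u) [Group P],
    (⊤ : Subgroup P).lowerCentralSeries c = ⊥ →
    (∀ x : P, ∀ n : ℕ, 0 < n → x ^ n = 1 → x = 1) →
    ∀ (a b : P) (e : ℕ), 0 < e → a ^ e = b ^ e → a = b := by
  induction c with
  | zero =>
    intro P _ hc _ a b e _ _
    have h : ∀ x : P, x = 1 := by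
      intro x
      have hx : x ∈ (⊤ : Subgroup P) := mem_top x
      rw [← Subgroup.lowerCentralSeries_zero (⊤ : Subgroup P), hc, mem_bot] at hx
      exact hx
    rw [h a, h b]
  | succ c ih =>
    intro P _ hc htf a b e he hab
    -- commuting elements
    have hcomm : a * b = b * a → a = b := by
      intro h
      have h1 : (a * b⁻¹) ^ e = 1 := by
        have h2 : Commute a b⁻¹ := (show Commute a b from h).inv_right
        rw [h2.mul_pow, inv_pow, hab, mul_inv_cancel]
      exact mul_inv_eq_one.mp (htf _ e he h1)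
    rcases Nat.eq_zero_or_pos c with h0 | hpos
    · -- the abelian case
      subst h0
      apply hcomm
      have h1 : ⁅(⊤ : Subgroup P), ⊤⁆ = ⊥ := hc
      have h2 := commutator_eq_bot_iff_le_centralizer.mp h1 (mem_top a)
      exact ((mem_centralizer_iff.mp h2) b (mem_top b)).symm
    · obtain ⟨c', rfl⟩ : ∃ c', c = c' + 1 := ⟨c - 1, by omega⟩
      set H : Subgroup P := zpowers a ⊔ commutator P with hH
      set N : Subgroup P := (⊤ : Subgroup P).lowerCentralSeries 2 with hN
      have hNn : N.Normal := by rw [hN]; infer_instance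
      have hbase : ⁅H, H⁆ ≤ N := by
        have h1 : map (QuotientGroup.mk' N) ⁅H, H⁆ = ⊥ := by
          rw [map_commutator, hH, Subgroup.map_sup]
          set A := map (QuotientGroup.mk' N) (zpowers a)
          set B := map (QuotientGroup.mk' N) (commutator P)
          have hB : ∀ b ∈ B, ∀ x : P ⧸ N, b * x = x * b := by
            have h2 : ⁅B, (⊤ : Subgroup (P ⧸ N))⁆ = ⊥ := by
              have h3 : (⊤ : Subgroup (P ⧸ N)) = map (QuotientGroup.mk' N) ⊤ :=
                (map_top_of_surjective _ (QuotientGroup.mk'_surjective N)).symm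
              rw [h3, ← map_commutator, Subgroup.map_eq_bot_iff, QuotientGroup.ker_mk']
              exact le_rfl
            intro b hb x
            have h4 := commutator_eq_bot_iff_le_centralizer.mp h2 hb
            exact ((mem_centralizer_iff.mp h4) x (mem_top x)).symm
          have hA : ∀ x ∈ A, ∀ y ∈ A, x * y = y * x := by
            rintro _ ⟨_, ⟨m, rfl⟩, rfl⟩ _ ⟨_, ⟨n, rfl⟩, rfl⟩
            rw [← map_mul, ← map_mul]
            congr 1
            exact zpow_mul_comm a m n
          rw [commutator_eq_bot_iff_le_centralizer]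
          refine sup_le ?_ ?_
          · rw [le_centralizer_iff]
            refine sup_le ?_ ?_
            · intro x hx
              rw [mem_centralizer_iff]
              exact fun y hy => hA y hy x hx
            · intro x hx
              rw [mem_centralizer_iff]
              exact fun y hy => (hB x hx y).symm
          · intro x hx
            rw [mem_centralizer_iff]
            exact fun y hy => (hB x hx y).symm
        rwa [Subgroup.map_eq_bot_iff, QuotientGroup.ker_mk'] at h1
      have hstep : ∀ i, H.lowerCentralSeries (i + 1) ≤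
          (⊤ : Subgroup P).lowerCentralSeries (i + 2) := by
        intro i
        induction i with
        | zero => exact hbase
        | succ i ihi =>
          rw [Subgroup.lowerCentralSeries_succ, Subgroup.lowerCentralSeries_succ]
          exact commutator_mono ihi le_top
      have hHc : (⊤ : Subgroup H).lowerCentralSeries (c' + 1) = ⊥ := by
        rw [← map_subtype_inj, Subgroup.map_bot, top_subtype_lowerCentralSeries, eq_bot_iff, ← hc]
        exact hstep c'
      have haH : a ∈ H := (le_sup_left : zpowers a ≤ H) (mem_zpowers a)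
      have hcH : a⁻¹ * b⁻¹ * a * b ∈ H := by
        refine (le_sup_right : commutator P ≤ H) ?_
        have h1 := commutator_mem_commutator (mem_top (a⁻¹ : P)) (mem_top (b⁻¹ : P))
        rw [commutatorElement_def, inv_inv, inv_inv] at h1
        exact h1
      have hbH : b⁻¹ * a * b ∈ H := by
        have h1 := mul_mem haH hcH
        have h2 : a * (a⁻¹ * b⁻¹ * a * b) = b⁻¹ * a * b := by group
        rwa [h2] at h1
      have h3 := ih H hHc (fun x n hn hx => Subtype.ext (htf x n hn (by
        have := congrArg Subtype.val hx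
        simpa using this))) ⟨a, haH⟩ ⟨b⁻¹ * a * b, hbH⟩ e he (Subtype.ext (by
          change a ^ e = (b⁻¹ * a * b) ^ e
          have h4 : (b⁻¹ * a * b) ^ e = b⁻¹ * a ^ e * b := by
            have := conj_pow (i := e) (a := b⁻¹) (b := a)
            simpa using this
          rw [h4, hab]
          have h5 : b⁻¹ * b ^ e * b = b ^ e := by
            rw [mul_assoc, (Commute.refl b).pow_left e, ← mul_assoc, inv_mul_cancel, one_mul]
          rw [h5]))
      have h6 : a = b⁻¹ * a * b := congrArg Subtype.val h3
      apply hcomm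
      calc a * b = (b⁻¹ * a * b) * b := by rw [← h6]
        _ = b * (b⁻¹ * (b⁻¹ * a * b)) * b := by group
        _ = b * (b⁻¹ * a) * b := by rw [← h6]
        _ = b * (b⁻¹ * a * b) := by group
        _ = b * a := by rw [← h6]

/-- `N` is normal with torsion-free nilpotent quotient -/
structure Good {L : Type u} [Group L] (N : Subgroup L) : Prop where
  normal : N.Normal
  nil : ∃ k, (⊤ : Subgroup L).lowerCentralSeries k ≤ N
  iso : ∀ y : L, ∀ n : ℕ, 0 < n → y ^ n ∈ N → y ∈ N

/-- residually torsion-free nilpotent -/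
def RTN (L : Type u) [Group L] : Prop := ∀ x : L, x ≠ 1 → ∃ N : Subgroup L, Good N ∧ x ∉ N

theorem Good.top (L : Type u) [Group L] : Good (⊤ : Subgroup L) :=
  ⟨inferInstance, ⟨0, le_top⟩, fun _ _ _ _ => mem_top _⟩

theorem Good.inf {L : Type u} [Group L] {N M : Subgroup L} (hN : Good N) (hM : Good M) :
    Good (N ⊓ M) := by
  obtain ⟨k, hk⟩ := hN.nil
  obtain ⟨l, hl⟩ := hM.nil
  have h1 := hN.normal
  have h2 := hM.normal
  refine ⟨inferInstance, ⟨max k l, le_inf ?_ ?_⟩, fun y n hn hy => ⟨hN.iso y n hn hy.1,
    hM.iso y n hn hy.2⟩⟩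
  · exact ((Subgroup.lowerCentralSeries_antitone _) (le_max_left k l)).trans hk
  · exact ((Subgroup.lowerCentralSeries_antitone _) (le_max_right k l)).trans hl

theorem Good.comap {L K : Type u} [Group L] [Group K] {N : Subgroup L} (hN : Good N)
    (f : K →* L) : Good (N.comap f) := by
  have h1 := hN.normal
  obtain ⟨k, hk⟩ := hN.nil
  refine ⟨inferInstance, ⟨k, ?_⟩, fun y n hn hy => hN.iso (f y) n hn (by
    rw [← map_pow]; exact hy)⟩
  rw [← map_le_iff_le_comap, map_lowerCentralSeries]
  exact (lowerCentralSeries_mono k le_top).trans hk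

theorem Good.map {L K : Type u} [Group L] [Group K] {N : Subgroup L} (hN : Good N)
    (f : L →* K) (hf : Function.Surjective f) (hk : f.ker ≤ N) : Good (N.map f) := by
  have h1 := hN.normal
  obtain ⟨k, hk'⟩ := hN.nil
  refine ⟨h1.map f hf, ⟨k, ?_⟩, ?_⟩
  · rw [← map_top_of_surjective f hf, ← map_lowerCentralSeries]
    exact map_mono hk'
  · intro y n hn hy
    obtain ⟨x, rfl⟩ := hf y
    rw [← map_pow] at hy
    obtain ⟨z, hz, hzx⟩ := hy
    refine mem_map_of_mem f (hN.iso x n hn ?_)
    have h2 : z⁻¹ * x ^ n ∈ f.ker := by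
      rw [MonoidHom.mem_ker, map_mul, map_inv, hzx, inv_mul_cancel]
    have h3 := mul_mem hz (hk h2)
    rwa [mul_inv_cancel_left] at h3

theorem RTN.subgroup {L : Type u} [Group L] (h : RTN L) (K : Subgroup L) : RTN K := by
  intro x hx
  obtain ⟨N, hN, hxN⟩ := h (x : L) (by simpa using hx)
  exact ⟨N.comap K.subtype, hN.comap _, hxN⟩

/-- the quotient by the centraliser of a normal subgroup -/
theorem RTN.quot_centralizer {L : Type u} [Group L] (h : RTN L) (X : Subgroup L) [X.Normal] :
    RTN (L ⧸ centralizer (X : Set L)) := by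
  intro g
  induction g using QuotientGroup.induction_on with
  | H g =>
    intro hg
    have hg' : g ∉ centralizer (X : Set L) := by
      intro hc
      exact hg ((QuotientGroup.eq_one_iff g).mpr hc)
    rw [mem_centralizer_iff] at hg'
    push Not at hg'
    obtain ⟨x, hx, hxg⟩ := hg'
    have hne : x * g * x⁻¹ * g⁻¹ ≠ 1 := by
      intro hc
      apply hxg
      rw [mul_inv_eq_one, mul_inv_eq_iff_eq_mul] at hc
      exact hc
    obtain ⟨N, hN, hxN⟩ := h _ hne
    have hNn := hN.normal
    -- the centraliser modulo `N`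
    let C : Subgroup L := (centralizer ((X.map (QuotientGroup.mk' N) : Subgroup (L ⧸ N)) :
      Set (L ⧸ N))).comap (QuotientGroup.mk' N)
    have hXn : (X.map (QuotientGroup.mk' N)).Normal :=
      (inferInstance : X.Normal).map _ (QuotientGroup.mk'_surjective N)
    have hC : ∀ y : L, y ∈ C ↔ ∀ z ∈ X, (QuotientGroup.mk' N) z * (QuotientGroup.mk' N) y =
        (QuotientGroup.mk' N) y * (QuotientGroup.mk' N) z := by
      intro y
      rw [mem_comap, mem_centralizer_iff]
      constructor
      · intro h1 z hz
        exact h1 _ (mem_map_of_mem _ hz)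
      · rintro h1 _ ⟨z, hz, rfl⟩
        exact h1 z hz
    have htf : ∀ x : L ⧸ N, ∀ n : ℕ, 0 < n → x ^ n = 1 → x = 1 := by
      intro x n hn hx
      induction x using QuotientGroup.induction_on with
      | H x =>
        rw [← QuotientGroup.mk_pow, QuotientGroup.eq_one_iff] at hx
        exact (QuotientGroup.eq_one_iff x).mpr (hN.iso x n hn hx)
    obtain ⟨k, hk⟩ := hN.nil
    have hnil : (⊤ : Subgroup (L ⧸ N)).lowerCentralSeries k = ⊥ := by
      rw [← map_top_of_surjective _ (QuotientGroup.mk'_surjective N), ← map_lowerCentralSeries,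
        Subgroup.map_eq_bot_iff, QuotientGroup.ker_mk']
      exact hk
    have hCgood : Good C := by
      refine ⟨inferInstance, ⟨k, hk.trans ?_⟩, ?_⟩
      · intro y hy
        rw [hC]
        intro z _
        have h1 : (QuotientGroup.mk' N) y = 1 := (QuotientGroup.eq_one_iff y).mpr hy
        rw [h1, mul_one, one_mul]
      · intro y n hn hy
        rw [hC] at hy ⊢
        intro z hz
        have h1 := hy z hz
        rw [map_pow] at h1
        have h2 : ((QuotientGroup.mk' N) z * (QuotientGroup.mk' N) y *
            ((QuotientGroup.mk' N) z)⁻¹) ^ n = ((QuotientGroup.mk' N) y) ^ n := by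
          rw [conj_pow, h1, mul_inv_cancel_right]
        have h3 := root_unique_aux k (L ⧸ N) hnil htf _ _ n hn h2
        rwa [mul_inv_eq_iff_eq_mul] at h3
    refine ⟨C.map (QuotientGroup.mk' (centralizer (X : Set L))),
      hCgood.map _ (QuotientGroup.mk'_surjective _) ?_, ?_⟩
    · rw [QuotientGroup.ker_mk']
      intro y hy
      rw [hC]
      intro z hz
      rw [← map_mul, ← map_mul, (mem_centralizer_iff.mp hy) z hz]
    · rintro ⟨y, hy, hyg⟩
      have h1 : y⁻¹ * g ∈ centralizer (X : Set L) := QuotientGroup.eq.mp hyg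
      have h2 : y⁻¹ * g ∈ C := by
        rw [hC]
        intro z hz
        rw [← map_mul, ← map_mul, (mem_centralizer_iff.mp h1) z hz]
      have h3 : g ∈ C := by
        have := mul_mem hy h2
        rwa [mul_inv_cancel_left] at this
      apply hxN
      rw [hC] at h3
      have h4 := h3 x hx
      rw [← QuotientGroup.eq_one_iff]
      change (QuotientGroup.mk' N) (x * g * x⁻¹ * g⁻¹) = 1
      rw [map_mul, map_mul, map_mul, map_inv, map_inv, h4, mul_inv_cancel_right, mul_inv_cancel]

/-- soluble groups with max in the class are nilpotent -/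
theorem RTN.nilpotent {L : Type u} [Group L] (h : RTN L) (hmax : ∀ H : Subgroup L, H.FG)
    (hs : Group.IsSolvable L) : Group.IsNilpotent L := by
  classical
  by_contra hnn
  have hne : ∀ N : Subgroup L, Good N → N ≠ ⊥ := by
    rintro N hN rfl
    obtain ⟨k, hk⟩ := hN.nil
    exact hnn (Subgroup.nilpotent_iff_lowerCentralSeries.mpr ⟨k, le_bot_iff.mp hk⟩)
  have hstep : ∀ N : {N : Subgroup L // Good N}, ∃ M : {N : Subgroup L // Good N}, M.1 < N.1 := by
    rintro ⟨N, hN⟩
    obtain ⟨x, hxN, hx1⟩ : ∃ x ∈ N, x ≠ 1 := by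
      by_contra hc
      push Not at hc
      exact hne N hN ((Subgroup.eq_bot_iff_forall N).mpr hc)
    obtain ⟨M, hM, hxM⟩ := h _ hx1
    refine ⟨⟨N ⊓ M, hN.inf hM⟩, lt_of_le_of_ne inf_le_left fun he => hxM ?_⟩
    have h1 : x ∈ N ⊓ M := by
      have h2 : N ⊓ M = N := he
      rw [h2]
      exact hxN
    exact h1.2
  choose nx hnx using hstep
  let D : ℕ → {N : Subgroup L // Good N} := fun n => nx^[n] ⟨⊤, Good.top L⟩
  have hD : ∀ n, (D (n + 1)).1 < (D n).1 := by
    intro n
    have h1 : D (n + 1) = nx (D n) := Function.iterate_succ_apply' _ _ _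
    rw [h1]
    exact hnx _
  obtain ⟨n, hn⟩ := chain_torsion hmax hs (fun n => (D n).1)
    (antitone_nat_of_succ_le fun n => (hD n).le) (fun n => (D n).2.normal)
  refine absurd (hD n) (not_lt_of_ge fun x hx => ?_)
  obtain ⟨e, he, hxe⟩ := hn n le_rfl x hx
  exact (D (n + 1)).2.iso x e he hxe

end Pool.Agent.RSN
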