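import Mathlib

set_option autoImplicit false

/-!
Bi-ordered groups: the translation number relative to a cofinal element.
-/

namespace Pool.Agent.RSN

open Function Filter Topology

universe u

variable {G : Type u} [Group G] [LinearOrder G] [MulLeftMono G] [MulRightMono G]

/-- a cofinal positive element of a nontrivial finitely generated subgroup -/
theorem exists_cofinal (H : Subgroup G) (hfg : H.FG) (hne : H ≠ ⊥) :
    ∃ a ∈ H, 1 < a ∧ ∀ x ∈ H, ∃ n : ℕ, x ≤ a ^ n ∧ x⁻¹ ≤ a ^ n := by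
  classical
  obtain ⟨S, hS⟩ := hfg
  set T : Finset G := insert 1 (S ∪ S.image (fun s => s⁻¹)) with hT
  have hTne : T.Nonempty := ⟨1, Finset.mem_insert_self _ _⟩
  have hSH : ∀ s ∈ S, s ∈ H := fun s hs => by
    rw [← hS]; exact Subgroup.subset_closure hs
  have hTH : ∀ t ∈ T, t ∈ H := by
    intro t ht
    rw [hT, Finset.mem_insert, Finset.mem_union, Finset.mem_image] at ht
    rcases ht with rfl | ht | ⟨s, hs, rfl⟩
    · exact one_mem H
    · exact hSH t ht
    · exact inv_mem (hSH s hs)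
  set a := T.max' hTne with ha
  have haH : a ∈ H := hTH a (T.max'_mem hTne)
  have h1a : 1 ≤ a := T.le_max' 1 (Finset.mem_insert_self _ _)
  have hsa : ∀ s ∈ S, s ≤ a ∧ s⁻¹ ≤ a := by
    intro s hs
    refine ⟨T.le_max' s ?_, T.le_max' s⁻¹ ?_⟩
    · rw [hT, Finset.mem_insert, Finset.mem_union]
      exact Or.inr (Or.inl hs)
    · rw [hT, Finset.mem_insert, Finset.mem_union, Finset.mem_image]
      exact Or.inr (Or.inr ⟨s, hs, rfl⟩)
  have ha1 : 1 < a := by
    refine lt_of_le_of_ne h1a fun h => hne ?_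
    rw [← hS, Subgroup.closure_eq_bot_iff]
    intro s hs
    obtain ⟨h2, h3⟩ := hsa s hs
    rw [← h] at h2 h3
    exact le_antisymm h2 (by
      have := inv_le_inv_iff.mpr h3
      rwa [inv_one, inv_inv] at this)
  refine ⟨a, haH, ha1, fun x hx => ?_⟩
  rw [← hS] at hx
  induction hx using Subgroup.closure_induction with
  | mem s hs => exact ⟨1, by rw [pow_one]; exact hsa s hs⟩
  | one => exact ⟨0, by simp⟩
  | mul x y _ _ ihx ihy =>
    obtain ⟨m, h1, h2⟩ := ihx
    obtain ⟨n, h3, h4⟩ := ihy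
    refine ⟨m + n, ?_, ?_⟩
    · rw [pow_add]; exact mul_le_mul' h1 h3
    · rw [mul_inv_rev, add_comm, pow_add]; exact mul_le_mul' h4 h2
  | inv x _ ih =>
    obtain ⟨n, h1, h2⟩ := ih
    exact ⟨n, h2, by rwa [inv_inv]⟩

theorem pow_mul_le_mul_pow {x y : G} (h : y * x ≤ x * y) (n : ℕ) : y ^ n * x ≤ x * y ^ n := by
  induction n with
  | zero => simp
  | succ n ih =>
    calc y ^ (n + 1) * x = y ^ n * (y * x) := by rw [pow_succ, mul_assoc]
      _ ≤ y ^ n * (x * y) := mul_le_mul_right h _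
      _ = (y ^ n * x) * y := by rw [mul_assoc]
      _ ≤ (x * y ^ n) * y := mul_le_mul_left ih _
      _ = x * y ^ (n + 1) := by rw [pow_succ, mul_assoc]

theorem mul_pow_le_pow_mul {x y : G} (h : y * x ≤ x * y) (n : ℕ) : y * x ^ n ≤ x ^ n * y := by
  induction n with
  | zero => simp
  | succ n ih =>
    calc y * x ^ (n + 1) = (y * x ^ n) * x := by rw [pow_succ, mul_assoc]
      _ ≤ (x ^ n * y) * x := mul_le_mul_left ih _
      _ = x ^ n * (y * x) := by rw [mul_assoc]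
      _ ≤ x ^ n * (x * y) := mul_le_mul_right h _
      _ = x ^ (n + 1) * y := by rw [pow_succ, mul_assoc (x ^ n) x y]

theorem upper {x y : G} (h : y * x ≤ x * y) (n : ℕ) : (x * y) ^ n ≤ x ^ n * y ^ n := by
  induction n with
  | zero => simp
  | succ n ih =>
    calc (x * y) ^ (n + 1) = (x * y) ^ n * (x * y) := pow_succ _ _
      _ ≤ (x ^ n * y ^ n) * (x * y) := mul_le_mul_left ih _
      _ = x ^ n * ((y ^ n * x) * y) := by simp only [mul_assoc]
      _ ≤ x ^ n * ((x * y ^ n) * y) := mul_le_mul_right (mul_le_mul_left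
          (pow_mul_le_mul_pow h n) _) _
      _ = x ^ (n + 1) * y ^ (n + 1) := by simp only [pow_succ, mul_assoc]

theorem lower {x y : G} (h : y * x ≤ x * y) (n : ℕ) : y ^ n * x ^ n ≤ (y * x) ^ n := by
  induction n with
  | zero => simp
  | succ n ih =>
    calc y ^ (n + 1) * x ^ (n + 1) = y ^ n * ((y * x ^ n) * x) := by
          simp only [pow_succ, mul_assoc]
      _ ≤ y ^ n * ((x ^ n * y) * x) := mul_le_mul_right (mul_le_mul_left
          (mul_pow_le_pow_mul h n) _) _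
      _ = (y ^ n * x ^ n) * (y * x) := by simp only [mul_assoc]
      _ ≤ (y * x) ^ n * (y * x) := mul_le_mul_left ih _
      _ = (y * x) ^ (n + 1) := (pow_succ _ _).symm

theorem pow_mul_lower {x y b c : G} (n : ℕ) (hb : b ≤ x ^ n) (hc : c ≤ y ^ n)
    (hbc : b * c = c * b) : b * c ≤ (x * y) ^ n := by
  rcases le_total (y * x) (x * y) with h | h
  · calc b * c = c * b := hbc
      _ ≤ y ^ n * x ^ n := mul_le_mul' hc hb
      _ ≤ (y * x) ^ n := lower h n
      _ ≤ (x * y) ^ n := pow_le_pow_left' h n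
  · calc b * c ≤ x ^ n * y ^ n := mul_le_mul' hb hc
      _ ≤ (x * y) ^ n := lower h n

theorem pow_mul_upper {x y b c : G} (n : ℕ) (hb : x ^ n ≤ b) (hc : y ^ n ≤ c)
    (hbc : b * c = c * b) : (x * y) ^ n ≤ b * c := by
  rcases le_total (y * x) (x * y) with h | h
  · calc (x * y) ^ n ≤ x ^ n * y ^ n := upper h n
      _ ≤ b * c := mul_le_mul' hb hc
  · calc (x * y) ^ n ≤ (y * x) ^ n := pow_le_pow_left' h n
      _ ≤ y ^ n * x ^ n := upper h n
      _ ≤ c * b := mul_le_mul' hc hb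
      _ = b * c := hbc.symm

omit [MulRightMono G] in
theorem zpow_mono_of_one_lt {a : G} (ha : 1 < a) {k l : ℤ} (h : k ≤ l) : a ^ k ≤ a ^ l := by
  obtain ⟨m, hm⟩ := Int.le.dest h
  rw [← hm, zpow_add, zpow_natCast]
  exact le_mul_of_one_le_right' (one_le_pow_of_one_le' ha.le m)

theorem lt_of_zpow_lt {a : G} (ha : 1 < a) {k l : ℤ} (h : a ^ k < a ^ l) : k < l := by
  by_contra hc
  push Not at hc
  exact absurd h (not_lt.mpr (zpow_mono_of_one_lt ha hc))

omit [MulRightMono G] in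
theorem zpow_strictMono_of_one_lt {a : G} (ha : 1 < a) {k l : ℤ} (h : k < l) : a ^ k < a ^ l := by
  obtain ⟨m, hm⟩ := Int.le.dest (Int.add_one_le_of_lt h)
  rw [← hm, add_assoc, zpow_add, zpow_add, zpow_one, zpow_natCast]
  exact lt_mul_of_one_lt_right' _ (one_lt_mul_of_lt_of_le' ha (one_le_pow_of_one_le' ha.le m))

theorem le_of_zpow_le {a : G} (ha : 1 < a) {k l : ℤ} (h : a ^ k ≤ a ^ l) : k ≤ l := by
  by_contra hc
  push Not at hc
  exact absurd h (not_le.mpr (zpow_strictMono_of_one_lt ha hc))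

/-- integer part of `x ^ n` with respect to powers of `a` -/
theorem exists_floor {a y : G} (ha : 1 < a) (hy : ∃ n : ℕ, y ≤ a ^ n ∧ y⁻¹ ≤ a ^ n) :
    ∃ k : ℤ, a ^ k ≤ y ∧ y < a ^ (k + 1) := by
  obtain ⟨n, h1, h2⟩ := hy
  have hlow : a ^ (-(n : ℤ)) ≤ y := by
    have := inv_le_inv_iff.mpr h2
    rw [inv_inv] at this
    rwa [zpow_neg, zpow_natCast]
  obtain ⟨k, hk1, hk2⟩ := Int.exists_greatest_of_bdd (P := fun k : ℤ => a ^ k ≤ y)
    ⟨(n : ℤ), fun z hz => le_of_zpow_le ha (by rw [zpow_natCast]; exact hz.trans h1)⟩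
    ⟨-(n : ℤ), hlow⟩
  refine ⟨k, hk1, ?_⟩
  by_contra hc
  push Not at hc
  have := hk2 _ hc
  omega

/-- **the translation number** -/
theorem exists_tau (H : Subgroup G) {a : G} (haH : a ∈ H) (ha : 1 < a)
    (hcof : ∀ x ∈ H, ∃ n : ℕ, x ≤ a ^ n ∧ x⁻¹ ≤ a ^ n) :
    ∃ τ : G → ℝ, (∀ x ∈ H, ∀ y ∈ H, τ (x * y) = τ x + τ y) ∧
      (∀ x ∈ H, 1 ≤ x → 0 ≤ τ x) ∧ τ a = 1 ∧
      ∀ σ : G → ℝ, (∀ x ∈ H, ∀ y ∈ H, σ (x * y) = σ x + σ y) →
        (∀ x ∈ H, 1 ≤ x → 0 ≤ σ x) → ∀ x ∈ H, σ x = σ a * τ x := by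
  classical
  have hfl : ∀ (x : G) (n : ℕ), x ∈ H → ∃ k : ℤ, a ^ k ≤ x ^ n ∧ x ^ n < a ^ (k + 1) :=
    fun x n hx => exists_floor ha (hcof _ (pow_mem hx n))
  choose! f hf using hfl
  -- bounds
  have hbd : ∀ x ∈ H, ∃ m : ℕ, ∀ n : ℕ, 0 < n → (f x n : ℝ) / n ∈ Set.Icc (-((m : ℝ) + 1)) m := by
    intro x hx
    obtain ⟨m, h1, h2⟩ := hcof x hx
    refine ⟨m, fun n hn => ?_⟩
    obtain ⟨h3, h4⟩ := hf x n hx
    have h5 : f x n ≤ (m : ℤ) * n := by
      apply le_of_zpow_le ha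
      refine h3.trans ?_
      rw [zpow_mul, zpow_natCast, zpow_natCast]
      exact pow_le_pow_left' h1 n
    have h6 : -((m : ℤ) * n) ≤ f x n + 1 := by
      apply le_of_zpow_le ha
      refine le_trans ?_ h4.le
      rw [zpow_neg, zpow_mul, zpow_natCast, zpow_natCast, ← inv_pow]
      refine pow_le_pow_left' ?_ n
      have := inv_le_inv_iff.mpr h2
      rwa [inv_inv] at this
    have hn' : (0 : ℝ) < n := by exact_mod_cast hn
    have hn1 : (1 : ℝ) ≤ n := by exact_mod_cast hn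
    have h5' : (f x n : ℝ) ≤ m * n := by exact_mod_cast h5
    have h6' : -((m : ℝ) * n) ≤ f x n + 1 := by exact_mod_cast h6
    constructor
    · rw [le_div_iff₀ hn']
      nlinarith
    · rw [div_le_iff₀ hn']
      exact h5'
  -- the limit along the hyperfilter
  have hlim : ∀ x ∈ H, ∃ t : ℝ, Tendsto (fun n : ℕ => (f x n : ℝ) / n)
      (hyperfilter ℕ : Filter ℕ) (𝓝 t) := by
    intro x hx
    obtain ⟨m, hm⟩ := hbd x hx
    have h1 : Set.Icc (-((m : ℝ) + 1)) (m : ℝ) ∈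
        ((hyperfilter ℕ).map (fun n : ℕ => (f x n : ℝ) / n) : Filter ℝ) := by
      rw [Ultrafilter.coe_map, mem_map]
      have h2 : ∀ᶠ n : ℕ in atTop, (f x n : ℝ) / n ∈ Set.Icc (-((m : ℝ) + 1)) (m : ℝ) := by
        filter_upwards [eventually_gt_atTop 0] with n hn using hm n hn
      exact Nat.hyperfilter_le_atTop h2
    obtain ⟨t, -, ht⟩ := isCompact_Icc.ultrafilter_le_nhds' _ h1
    exact ⟨t, ht⟩
  choose! τ hτ using hlim
  have hinv : Tendsto (fun n : ℕ => (n : ℝ)⁻¹) (hyperfilter ℕ : Filter ℕ) (𝓝 0) :=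
    tendsto_inv_atTop_nhds_zero_nat.mono_left Nat.hyperfilter_le_atTop
  have huniq : ∀ σ : G → ℝ, (∀ x ∈ H, ∀ y ∈ H, σ (x * y) = σ x + σ y) →
        (∀ x ∈ H, 1 ≤ x → 0 ≤ σ x) → ∀ x ∈ H, σ x = σ a * τ x := by
    intro σ hσ hpos x hx
    have hσ1 : σ 1 = 0 := by
      have := hσ 1 (one_mem H) 1 (one_mem H)
      rw [mul_one] at this
      linarith
    have hσinv : ∀ y ∈ H, σ y⁻¹ = - σ y := by
      intro y hy
      have := hσ y hy y⁻¹ (inv_mem hy)
      rw [mul_inv_cancel, hσ1] at this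
      linarith
    have hσpow : ∀ y ∈ H, ∀ n : ℕ, σ (y ^ n) = n * σ y := by
      intro y hy n
      induction n with
      | zero => simp [hσ1]
      | succ n ih =>
        rw [pow_succ, hσ _ (pow_mem hy n) _ hy, ih]
        push_cast
        ring
    have hσzpow : ∀ y ∈ H, ∀ n : ℤ, σ (y ^ n) = n * σ y := by
      intro y hy n
      obtain ⟨m, rfl | rfl⟩ := n.eq_nat_or_neg
      · rw [zpow_natCast, hσpow y hy]; simp
      · rw [zpow_neg, zpow_natCast, hσinv _ (pow_mem hy m), hσpow y hy]; simp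
    have hmono : ∀ y ∈ H, ∀ z ∈ H, y ≤ z → σ y ≤ σ z := by
      intro y hy z hz hyz
      have h1 := hpos (y⁻¹ * z) (mul_mem (inv_mem hy) hz) (by
        have := mul_le_mul_right hyz y⁻¹
        rwa [inv_mul_cancel] at this)
      rw [hσ _ (inv_mem hy) _ hz, hσinv y hy] at h1
      linarith
    have hsa : 0 ≤ σ a := hpos a haH ha.le
    -- the difference tends to zero
    have h1 : Tendsto (fun n : ℕ => σ a * ((f x n : ℝ) / n)) (hyperfilter ℕ : Filter ℕ)
        (𝓝 (σ a * τ x)) := (hτ x hx).const_mul _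
    have h2 : Tendsto (fun n : ℕ => σ a * ((f x n : ℝ) / n) + σ a * (n : ℝ)⁻¹)
        (hyperfilter ℕ : Filter ℕ) (𝓝 (σ a * τ x + σ a * 0)) := h1.add (hinv.const_mul _)
    rw [mul_zero, add_zero] at h2
    have hev : ∀ᶠ n : ℕ in (hyperfilter ℕ : Filter ℕ), 0 < n :=
      Nat.hyperfilter_le_atTop (eventually_gt_atTop 0)
    have hb : ∀ᶠ n : ℕ in (hyperfilter ℕ : Filter ℕ), σ a * ((f x n : ℝ) / n) ≤ σ x ∧
        σ x ≤ σ a * ((f x n : ℝ) / n) + σ a * (n : ℝ)⁻¹ := by
      filter_upwards [hev] with n hn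
      obtain ⟨h3, h4⟩ := hf x n hx
      have hn' : (0 : ℝ) < n := by exact_mod_cast hn
      have h5 := hmono _ (zpow_mem haH _) _ (pow_mem hx n) h3
      have h6 := hmono _ (pow_mem hx n) _ (zpow_mem haH _) h4.le
      rw [hσzpow a haH, hσpow x hx] at h5
      rw [hσzpow a haH, hσpow x hx] at h6
      push_cast at h6
      constructor
      · rw [← mul_div_assoc, div_le_iff₀ hn']
        linarith
      · have h7 : σ a * ((f x n : ℝ) / n) + σ a * (n : ℝ)⁻¹ = ((f x n : ℝ) + 1) * σ a / n := by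
          field_simp
        rw [h7, le_div_iff₀ hn']
        linarith
    refine le_antisymm ?_ ?_
    · exact ge_of_tendsto h2 (hb.mono fun n hn => hn.2)
    · exact le_of_tendsto h1 (hb.mono fun n hn => hn.1)
  refine ⟨τ, ?_, ?_, ?_, huniq⟩
  · -- additivity
    intro x hx y hy
    have hxy := hτ (x * y) (mul_mem hx hy)
    have h1 : Tendsto (fun n : ℕ => (f x n : ℝ) / n + (f y n : ℝ) / n)
        (hyperfilter ℕ : Filter ℕ) (𝓝 (τ x + τ y)) := (hτ x hx).add (hτ y hy)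
    have h2 : Tendsto (fun n : ℕ => (f x n : ℝ) / n + (f y n : ℝ) / n + 2 * (n : ℝ)⁻¹)
        (hyperfilter ℕ : Filter ℕ) (𝓝 (τ x + τ y + 2 * 0)) := h1.add (hinv.const_mul _)
    rw [mul_zero, add_zero] at h2
    have hev : ∀ᶠ n : ℕ in (hyperfilter ℕ : Filter ℕ), 0 < n :=
      Nat.hyperfilter_le_atTop (eventually_gt_atTop 0)
    have hb : ∀ᶠ n : ℕ in (hyperfilter ℕ : Filter ℕ),
        (f x n : ℝ) / n + (f y n : ℝ) / n ≤ (f (x * y) n : ℝ) / n ∧
        (f (x * y) n : ℝ) / n ≤ (f x n : ℝ) / n + (f y n : ℝ) / n + 2 * (n : ℝ)⁻¹ := by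
      filter_upwards [hev] with n hn
      obtain ⟨h3, h4⟩ := hf x n hx
      obtain ⟨h5, h6⟩ := hf y n hy
      obtain ⟨h7, h8⟩ := hf (x * y) n (mul_mem hx hy)
      have hn' : (0 : ℝ) < n := by exact_mod_cast hn
      have h9 := pow_mul_lower n h3 h5 (zpow_mul_comm a _ _)
      have h10 := pow_mul_upper n h4.le h6.le (zpow_mul_comm a _ _)
      rw [← zpow_add] at h9 h10
      have h11 : f x n + f y n < f (x * y) n + 1 := lt_of_zpow_lt ha (h9.trans_lt h8)
      have h12 : f (x * y) n ≤ f x n + 1 + (f y n + 1) := le_of_zpow_le ha (h7.trans h10)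
      have h11' : (f x n : ℝ) + f y n ≤ f (x * y) n := by
        have : f x n + f y n ≤ f (x * y) n := by omega
        exact_mod_cast this
      have h12' : (f (x * y) n : ℝ) ≤ f x n + 1 + (f y n + 1) := by exact_mod_cast h12
      constructor
      · rw [← add_div]
        exact div_le_div_of_nonneg_right h11' hn'.le
      · have h13 : (f x n : ℝ) / n + (f y n : ℝ) / n + 2 * (n : ℝ)⁻¹ =
            ((f x n : ℝ) + 1 + (f y n + 1)) / n := by
          field_simp
          ring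
        rw [h13]
        exact div_le_div_of_nonneg_right h12' hn'.le
    refine le_antisymm ?_ ?_
    · exact le_of_tendsto_of_tendsto hxy h2 (hb.mono fun n hn => hn.2)
    · exact le_of_tendsto_of_tendsto h1 hxy (hb.mono fun n hn => hn.1)
  · -- positivity
    intro x hx h1x
    refine ge_of_tendsto (hτ x hx) ?_
    filter_upwards [] with n
    obtain ⟨h3, h4⟩ := hf x n hx
    have h5 : (1 : G) ≤ x ^ n := one_le_pow_of_one_le' h1x n
    have h6 : (0 : ℤ) < f x n + 1 := by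
      apply lt_of_zpow_lt ha
      rw [zpow_zero]
      exact h5.trans_lt h4
    have h7 : (0 : ℝ) ≤ f x n := by
      have : (0 : ℤ) ≤ f x n := by omega
      exact_mod_cast this
    positivity
  · -- the value at `a`
    have h1 : ∀ᶠ n : ℕ in (hyperfilter ℕ : Filter ℕ), (f a n : ℝ) / n = 1 := by
      have hev : ∀ᶠ n : ℕ in (hyperfilter ℕ : Filter ℕ), 0 < n :=
        Nat.hyperfilter_le_atTop (eventually_gt_atTop 0)
      filter_upwards [hev] with n hn
      obtain ⟨h3, h4⟩ := hf a n haH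
      rw [← zpow_natCast] at h3 h4
      have h5 := le_of_zpow_le ha h3
      have h6 := lt_of_zpow_lt ha h4
      have h7 : f a n = n := by omega
      rw [h7]
      have hn' : (n : ℝ) ≠ 0 := by exact_mod_cast hn.ne'
      push_cast
      exact div_self hn'
    have h2 : Tendsto (fun _ : ℕ => (1 : ℝ)) (hyperfilter ℕ : Filter ℕ) (𝓝 (τ a)) :=
      (hτ a haH).congr' h1
    exact (tendsto_nhds_unique h2 tendsto_const_nhds)

end Pool.Agent.RSN
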