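import Pool.Agent.RSN.SecP

set_option autoImplicit false

/-!
From an insoluble bi-ordered group with max to an insoluble residually torsion-free nilpotent one.
-/

namespace Pool.Agent.RSN

open Function Subgroup

universe u

/-- the derived series of the commutator subgroup -/
theorem derivedSeries_succ_le {G : Type u} [Group G] (m : ℕ) :
    derivedSeries G (m + 1) ≤ (derivedSeries (commutator G) m).map (commutator G).subtype := by
  induction m with
  | zero =>
    rw [derivedSeries_zero, ← MonoidHom.range_eq_map, Subgroup.range_subtype]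
    exact le_rfl
  | succ m ih =>
    rw [derivedSeries_succ G (m + 1), derivedSeries_succ (commutator G) m, Subgroup.map_commutator]
    exact commutator_mono ih ih

theorem exists_TN {G : Type u} [Group G] [LinearOrder G] [MulLeftMono G] [MulRightMono G]
    (hmax : ∀ H : Subgroup G, H.FG) (hns : ¬ Group.IsSolvable G) :
    ∃ N : Subgroup G, SecP TN N := by
  obtain ⟨C, hC0, hCn, hClt, hCiso, hCact⟩ := exists_chain hmax hns
  have hanti : Antitone C := antitone_nat_of_succ_le fun n => (hClt n).le
  set K : Subgroup G := ⨅ n, C n with hK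
  have hKn : K.Normal := Subgroup.normal_iInf_normal hCn
  have hKle : ∀ n, K ≤ C n := fun n => iInf_le _ n
  -- isolated
  have hiso : ∀ n, ∀ x : G, ∀ m : ℕ, 0 < m → x ^ m ∈ C n → x ∈ C n := by
    intro n
    induction n with
    | zero => intro x m _ _; rw [hC0]; exact mem_top x
    | succ n ih =>
      intro x m hm hx
      exact hCiso n x (ih x m hm ((hClt n).le hx)) m hm hx
  set D : Subgroup G := commutator G with hD
  let KD : Subgroup D := K.subgroupOf D
  -- members of `Good`
  have hgood : ∀ n, Good (((C n).subgroupOf D).map (QuotientGroup.mk' KD)) := by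
    intro n
    have hn := hCn n
    have h1 : Good ((C n).subgroupOf D) := by
      refine ⟨inferInstance, ⟨n, ?_⟩, ?_⟩
      · have h2 : ∀ i, (⊤ : Subgroup D).lowerCentralSeries i ≤ (C i).subgroupOf D := by
          intro i
          induction i with
          | zero =>
            intro x _
            rw [Subgroup.mem_subgroupOf, hC0]
            exact mem_top _
          | succ i ih =>
            rw [Subgroup.lowerCentralSeries_succ, commutator_le]
            intro x hx y _
            have h3 : (x : G) ∈ C i := ih hx
            have h4 := hCact i (y : G) y.2 (x : G) h3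
            rw [commutatorElement_def, Subgroup.mem_subgroupOf]
            have h5 : ((x * y * x⁻¹ * y⁻¹ : D) : G) =
                ((y : G) * x * (y : G)⁻¹ * (x : G)⁻¹)⁻¹ := by
              push_cast
              group
            rw [h5]
            exact inv_mem h4
        exact h2 n
      · intro y m hm hy
        exact hiso n (y : G) m hm hy
    refine h1.map _ (QuotientGroup.mk'_surjective KD) ?_
    rw [QuotientGroup.ker_mk']
    intro x hx
    exact hKle n hx
  have hRTN : RTN (D ⧸ KD) := by
    intro x
    induction x using QuotientGroup.induction_on with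
    | H d =>
      intro hd
      have hdK : (d : G) ∉ K := by
        intro hc
        exact hd ((QuotientGroup.eq_one_iff d).mpr hc)
      rw [hK, Subgroup.mem_iInf] at hdK
      push Not at hdK
      obtain ⟨n, hn⟩ := hdK
      refine ⟨_, hgood n, ?_⟩
      rintro ⟨c, hc, hcd⟩
      have h1 : c⁻¹ * d ∈ KD := QuotientGroup.eq.mp hcd
      have h2 : (c : G)⁻¹ * d ∈ C n := hKle n h1
      have h3 : (c : G) ∈ C n := hc
      apply hn
      have := mul_mem h3 h2
      rwa [mul_inv_cancel_left] at this
  have hins : ¬ Group.IsSolvable (D ⧸ KD) := by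
    intro hs
    obtain ⟨m, hm⟩ := hs.solvable
    rw [← map_derivedSeries_eq (QuotientGroup.mk'_surjective KD), Subgroup.map_eq_bot_iff,
      QuotientGroup.ker_mk'] at hm
    have h1 : derivedSeries G (m + 1) ≤ K := by
      refine (derivedSeries_succ_le m).trans ?_
      rintro _ ⟨x, hx, rfl⟩
      exact hm hx
    have h2 : Group.IsSolvable (G ⧸ K) := by
      refine ⟨⟨m + 1, ?_⟩⟩
      rw [← map_derivedSeries_eq (QuotientGroup.mk'_surjective K), Subgroup.map_eq_bot_iff,
        QuotientGroup.ker_mk']
      exact h1
    obtain ⟨n, hn⟩ := chain_torsion (max_of_surjective hmax _ (QuotientGroup.mk'_surjective K)) h2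
      (fun n => (C n).map (QuotientGroup.mk' K)) (fun a b h => map_mono (hanti h))
      (fun n => (hCn n).map _ (QuotientGroup.mk'_surjective K))
    refine absurd (hClt n) (not_lt_of_ge fun x hx => ?_)
    obtain ⟨e, he, c, hc, hce⟩ := hn n le_rfl (QuotientGroup.mk' K x) (mem_map_of_mem _ hx)
    rw [← map_pow] at hce
    have h3 : c⁻¹ * x ^ e ∈ K := QuotientGroup.eq.mp hce
    have h4 : x ^ e ∈ C (n + 1) := by
      have := mul_mem (show c ∈ C (n + 1) from hc) (hKle (n + 1) h3)
      rwa [mul_inv_cancel_left] at this
    exact hiso (n + 1) x e he h4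
  exact ⟨_, D, D ⧸ KD, inferInstance, QuotientGroup.mk' KD, QuotientGroup.mk'_surjective KD, rfl,
    hRTN, hins⟩

/-- **the section** -/
theorem exists_MinQ {G : Type u} [Group G] [LinearOrder G] [MulLeftMono G] [MulRightMono G]
    (hmax : ∀ H : Subgroup G, H.FG) (hns : ¬ Group.IsSolvable G) :
    ∃ (H : Subgroup G) (Q : Type u) (_ : Group Q) (f : H →* Q), Surjective f ∧ MinQ Q ∧
      ∃ x y : Q, Subgroup.closure ({x, y} : Set Q) = ⊤ :=
  exists_MinQ_of_SecP hmax (exists_TN hmax hns)

end Pool.Agent.RSN
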