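import Pool.Agent.RSN.Section

set_option autoImplicit false

/-!
Periodic groups with the maximal condition, involutions.
-/

namespace Pool.Agent.RSN

open Function

universe u

variable {G : Type u} [Group G]

/-- the terms of the derived series have finite index -/
theorem index_derivedSeries (hmax : ∀ H : Subgroup G, H.FG) (htor : ∀ g : G, IsOfFinOrder g)
    (k : ℕ) : (derivedSeries G k).index ≠ 0 := by
  induction k with
  | zero => simp
  | succ k ih =>
    set D := derivedSeries G k with hD
    have h1 : derivedSeries G (k + 1) = ⁅D, D⁆ := derivedSeries_succ G k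
    have h2 : (⁅D, D⁆ : Subgroup G).relIndex D = (commutator D).index := by
      rw [← Subgroup.map_subtype_commutator, Subgroup.relIndex, Subgroup.subgroupOf,
        Subgroup.comap_map_eq_self_of_injective D.subtype_injective]
    have hfg : Group.FG D := (Group.fg_iff_subgroup_fg D).mpr (hmax D)
    have htD : ∀ x : Abelianization D, IsOfFinOrder x := by
      intro x
      induction x using QuotientGroup.induction_on with
      | H y =>
        have hy : IsOfFinOrder y := by
          have := htor (y : G)
          exact Submonoid.isOfFinOrder_coe.1 this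
        exact (Abelianization.of (G := D)).isOfFinOrder hy
    have hfgA : Group.FG (Abelianization D) := Group.fg_of_surjective
      (f := (Abelianization.of (G := D))) (QuotientGroup.mk'_surjective (commutator D))
    have hfin : Finite (Abelianization D) := CommGroup.finite_of_fg_isMulTorsion _ htD
    have h3 : (commutator D).index ≠ 0 := by
      have : Finite (D ⧸ commutator D) := hfin
      rw [Subgroup.index]
      exact Nat.card_pos.ne'
    rw [h1, ← Subgroup.relIndex_mul_index (Subgroup.commutator_le_self D), h2]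
    exact mul_ne_zero h3 ih

/-- a periodic soluble group all of whose subgroups are finitely generated is finite -/
theorem finite_of_soluble (hmax : ∀ H : Subgroup G, H.FG) (htor : ∀ g : G, IsOfFinOrder g)
    (hs : Group.IsSolvable G) : Finite G := by
  obtain ⟨k, hk⟩ := hs.solvable
  have h := index_derivedSeries hmax htor k
  rw [hk, Subgroup.index_bot] at h
  exact Nat.finite_of_card_ne_zero h

/-- subgroups version -/
theorem finite_of_soluble_subgroup (hmax : ∀ H : Subgroup G, H.FG)
    (htor : ∀ g : G, IsOfFinOrder g) (L : Subgroup G) (hs : Group.IsSolvable L) : Finite L := by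
  refine finite_of_soluble (G := L) ?_ ?_ hs
  · intro K
    exact section_max hmax (MonoidHom.id L) surjective_id K
  · intro g
    have := htor (g : G)
    exact Submonoid.isOfFinOrder_coe.1 this

/-- a finite set can be avoided by a term of the derived series -/
theorem avoid (hres : ResSol G) (C : Subgroup G) [Finite C] :
    ∃ k, ∀ c ∈ C, c ∈ derivedSeries G k → c = 1 := by
  classical
  have : Fintype C := Fintype.ofFinite C
  have h : ∀ c : C, ∃ n, (c : G) ∈ derivedSeries G n → (c : G) = 1 := by
    intro c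
    by_cases hc : (c : G) = 1
    · exact ⟨0, fun _ => hc⟩
    · obtain ⟨n, hn⟩ := hres _ hc
      exact ⟨n, fun h => absurd h hn⟩
  choose n hn using h
  refine ⟨Finset.univ.sup n, fun c hc hck => hn ⟨c, hc⟩ ?_⟩
  exact derivedSeries_antitone G (Finset.le_sup (Finset.mem_univ (⟨c, hc⟩ : C))) hck

/-- `t` with no fixed points on a periodic normal subgroup inverts it -/
theorem inverts {N : Subgroup G} [N.Normal] {t : G} (ht : t * t = 1)
    (htor : ∀ g ∈ N, IsOfFinOrder g) (hfix : ∀ n ∈ N, t * n = n * t → n = 1)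
    (x : G) (hx : x ∈ N) : t * x * t = x⁻¹ := by
  have htinv : t⁻¹ = t := inv_eq_of_mul_eq_one_left ht
  set y := t * x⁻¹ * t * x with hy
  have hyN : y ∈ N := by
    have h1 : t * x⁻¹ * t ∈ N := by
      have := (inferInstance : N.Normal).conj_mem x⁻¹ (inv_mem hx) t
      rwa [htinv] at this
    exact mul_mem h1 hx
  have hty : t * y * t = y⁻¹ := by
    rw [hy]
    simp only [mul_inv_rev, inv_inv, htinv]
    have : t * (t * x⁻¹ * t * x) * t = (t * t) * (x⁻¹ * t * x * t) := by group
    rw [this, ht, one_mul]
    group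
  have hpow : ∀ m : ℕ, t * y ^ m * t = (y ^ m)⁻¹ := by
    intro m
    have : t * y ^ m * t = (t * y * t⁻¹) ^ m := by rw [conj_pow, htinv]
    rw [this, htinv, hty, inv_pow]
  have hn : 0 < orderOf y := (htor y hyN).orderOf_pos
  rcases Nat.even_or_odd' (orderOf y) with ⟨m, hm | hm⟩
  · -- even order
    exfalso
    have hm0 : 0 < m := by omega
    have hz1 : y ^ m ≠ 1 := by
      intro h
      have := orderOf_le_of_pow_eq_one hm0 h
      omega
    have hz2 : y ^ m * y ^ m = 1 := by
      rw [← pow_add, ← two_mul, ← hm, pow_orderOf_eq_one]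
    apply hz1
    apply hfix _ (pow_mem hyN m)
    have h1 := hpow m
    have h2 : (y ^ m)⁻¹ = y ^ m := inv_eq_of_mul_eq_one_left hz2
    rw [h2] at h1
    calc t * y ^ m = t * y ^ m * (t * t) := by rw [ht, mul_one]
      _ = (t * y ^ m * t) * t := by group
      _ = y ^ m * t := by rw [h1]
  · -- odd order
    set w := y ^ (m + 1) with hw
    have hww : w * w = y := by
      rw [hw, ← pow_add]
      have : m + 1 + (m + 1) = orderOf y + 1 := by omega
      rw [this, pow_succ, pow_orderOf_eq_one, one_mul]
    have htw : t * w * t = w⁻¹ := hpow (m + 1)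
    have hwN : w ∈ N := pow_mem hyN _
    have hcomm : t * (x * w⁻¹) = (x * w⁻¹) * t := by
      -- `x⁻¹ t x = t y = w⁻¹ t w`
      have h1 : x⁻¹ * t * x = t * y := by
        rw [hy]
        have : t * (t * x⁻¹ * t * x) = (t * t) * (x⁻¹ * t * x) := by group
        rw [this, ht, one_mul]
      have h2 : w⁻¹ * t * w = t * y := by
        calc w⁻¹ * t * w = (t * w * t) * t * w := by rw [htw]
          _ = t * w * (t * t) * w := by group
          _ = t * (w * w) := by rw [ht]; group
          _ = t * y := by rw [hww]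
      have h3 : x⁻¹ * t * x = w⁻¹ * t * w := h1.trans h2.symm
      calc t * (x * w⁻¹) = x * (x⁻¹ * t * x) * w⁻¹ := by group
        _ = x * (w⁻¹ * t * w) * w⁻¹ := by rw [h3]
        _ = (x * w⁻¹) * t := by group
    have hxw : x * w⁻¹ = 1 := hfix _ (mul_mem hx (inv_mem hwN)) hcomm
    have : x = w := mul_inv_eq_one.mp hxw
    rw [this, htw]

/-- an involution with finite centraliser in a periodic residually soluble group with max -/
theorem soluble_of_centralizer (hmax : ∀ H : Subgroup G, H.FG) (hres : ResSol G)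
    (htor : ∀ g : G, IsOfFinOrder g) {t : G} (ht : t * t = 1)
    (hs : Group.IsSolvable (Subgroup.centralizer ({t} : Set G))) : Group.IsSolvable G := by
  have hfin : Finite (Subgroup.centralizer ({t} : Set G)) :=
    finite_of_soluble_subgroup hmax htor _ hs
  obtain ⟨k, hk⟩ := avoid hres (Subgroup.centralizer ({t} : Set G))
  have hinv : ∀ x ∈ derivedSeries G k, t * x * t = x⁻¹ := by
    refine inverts ht (fun g _ => htor g) ?_
    intro n hn hc
    refine hk n ?_ hn
    rw [Subgroup.mem_centralizer_singleton_iff]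
    exact hc.symm
  refine ⟨⟨k + 1, ?_⟩⟩
  rw [derivedSeries_succ, Subgroup.commutator_eq_bot_iff_le_centralizer]
  intro x hx
  rw [Subgroup.mem_centralizer_iff]
  intro y hy
  have h1 := hinv _ hx
  have h2 := hinv _ hy
  have h3 := hinv _ (mul_mem hx hy)
  have h4 : (t * x * t) * (t * y * t) = t * (x * y) * t := by
    calc (t * x * t) * (t * y * t) = t * x * (t * t) * y * t := by group
      _ = t * (x * y) * t := by rw [ht]; group
  rw [h1, h2, h3, mul_inv_rev] at h4
  have h5 := congrArg Inv.inv h4
  simpa [mul_inv_rev] using h5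

/-- an element whose square centralises an involution centralises some involution -/
theorem fixed_involution (hd : ∀ u v : G, u ^ 2 = 1 → v ^ 2 = 1 → IsOfFinOrder (u * v))
    (a u : G) (hu1 : u ≠ 1) (hu2 : u ^ 2 = 1) (ha : a * a * u = u * (a * a)) :
    ∃ w ∈ Subgroup.closure ({u, a⁻¹ * u * a} : Set G), w ≠ 1 ∧ w ^ 2 = 1 ∧ a * w = w * a := by
  set v := a⁻¹ * u * a with hv
  have huu : u * u = 1 := by rwa [pow_two] at hu2
  have huinv : u⁻¹ = u := inv_eq_of_mul_eq_one_left huu
  have hvv : v * v = 1 := by
    calc v * v = a⁻¹ * (u * u) * a := by rw [hv]; group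
      _ = 1 := by rw [huu]; group
  have hvinv : v⁻¹ = v := inv_eq_of_mul_eq_one_left hvv
  have hav : a⁻¹ * v * a = u := by
    calc a⁻¹ * v * a = (a * a)⁻¹ * (u * (a * a)) := by rw [hv]; group
      _ = (a * a)⁻¹ * (a * a * u) := by rw [ha]
      _ = u := by group
  set y := u * v with hy
  have hyinv : y⁻¹ = v * u := by rw [hy, mul_inv_rev, huinv, hvinv]
  have hay : a⁻¹ * y * a = y⁻¹ := by
    calc a⁻¹ * y * a = (a⁻¹ * u * a) * (a⁻¹ * v * a) := by rw [hy]; group
      _ = y⁻¹ := by rw [hav, ← hv, hyinv]
  have hayp : ∀ m : ℕ, a⁻¹ * y ^ m * a = (y ^ m)⁻¹ := by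
    intro m
    have h1 : (a⁻¹ * y * a) ^ m = a⁻¹ * y ^ m * a := by
      have := conj_pow (i := m) (a := a⁻¹) (b := y)
      simpa using this
    rw [← h1, hay, inv_pow]
  have hu_mem : u ∈ Subgroup.closure ({u, v} : Set G) :=
    Subgroup.subset_closure (by simp)
  have hv_mem : v ∈ Subgroup.closure ({u, v} : Set G) :=
    Subgroup.subset_closure (by simp)
  have hy_mem : y ∈ Subgroup.closure ({u, v} : Set G) := mul_mem hu_mem hv_mem
  have hn : 0 < orderOf y := (hd u v hu2 (by rw [pow_two, hvv])).orderOf_pos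
  rcases Nat.even_or_odd' (orderOf y) with ⟨m, hm | hm⟩
  · have hm0 : 0 < m := by omega
    have hz1 : y ^ m ≠ 1 := by
      intro h
      have := orderOf_le_of_pow_eq_one hm0 h
      omega
    have hz2 : y ^ m * y ^ m = 1 := by
      rw [← pow_add, ← two_mul, ← hm, pow_orderOf_eq_one]
    refine ⟨y ^ m, pow_mem hy_mem m, hz1, by rw [pow_two, hz2], ?_⟩
    have h1 := hayp m
    rw [inv_eq_of_mul_eq_one_left hz2] at h1
    calc a * y ^ m = a * (a⁻¹ * y ^ m * a) := by rw [h1]
      _ = y ^ m * a := by group
  · have hvuy : v = u * y := by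
      rw [hy, ← mul_assoc, huu, one_mul]
    have huyu : ∀ j : ℕ, u * y ^ j * u = (y ^ j)⁻¹ := by
      intro j
      have h1 : u * y * u⁻¹ = y⁻¹ := by
        rw [huinv, ← hvuy, hyinv]
      have h2 : u * y ^ j * u = (u * y * u⁻¹) ^ j := by rw [conj_pow, huinv]
      rw [h2, h1, inv_pow]
    have hw2 : (u * y ^ (m + 1)) * (u * y ^ (m + 1)) = 1 := by
      calc (u * y ^ (m + 1)) * (u * y ^ (m + 1)) = (u * y ^ (m + 1) * u) * y ^ (m + 1) := by group
        _ = 1 := by rw [huyu]; group
    refine ⟨u * y ^ (m + 1), mul_mem hu_mem (pow_mem hy_mem _), ?_, by rw [pow_two, hw2], ?_⟩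
    · intro hc
      have h1 : u = (y ^ (m + 1))⁻¹ := eq_inv_of_mul_eq_one_left hc
      have h2 : u ^ (orderOf y) = 1 := by
        rw [h1, inv_pow, ← pow_mul, mul_comm, pow_mul, pow_orderOf_eq_one, one_pow, inv_one]
      rw [hm, pow_succ, pow_mul, hu2, one_pow, one_mul] at h2
      exact hu1 h2
    · have h1 : a⁻¹ * (u * y ^ (m + 1)) * a = u * y ^ (m + 1) := by
        have h2 : y * (y ^ (m + 1))⁻¹ = y ^ (m + 1) := by
          have h3 : y ^ (m + 1) * y ^ (m + 1) = y := by
            rw [← pow_add]
            have : m + 1 + (m + 1) = orderOf y + 1 := by omega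
            rw [this, pow_succ, pow_orderOf_eq_one, one_mul]
          calc y * (y ^ (m + 1))⁻¹ = (y ^ (m + 1) * y ^ (m + 1)) * (y ^ (m + 1))⁻¹ := by rw [h3]
            _ = y ^ (m + 1) := by group
        calc a⁻¹ * (u * y ^ (m + 1)) * a = (a⁻¹ * u * a) * (a⁻¹ * y ^ (m + 1) * a) := by group
          _ = v * (y ^ (m + 1))⁻¹ := by rw [hayp, ← hv]
          _ = u * (y * (y ^ (m + 1))⁻¹) := by rw [hvuy]; group
          _ = u * y ^ (m + 1) := by rw [h2]
      calc a * (u * y ^ (m + 1)) = a * (a⁻¹ * (u * y ^ (m + 1)) * a) := by rw [h1]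
        _ = (u * y ^ (m + 1)) * a := by group

end Pool.Agent.RSN
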