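import Pool.Agent.RSN.Nil

set_option autoImplicit false

/-!
Minimal sections for a class of groups; the class of insoluble residually torsion-free nilpotent
groups.
-/

namespace Pool.Agent.RSN

open Function

universe u

variable {T : (K : Type u) → [Group K] → Prop} {G : Type u} [Group G]

/-- `N` is the kernel of a homomorphism of a subgroup onto a group with the property `T` -/
def SecP (T : (K : Type u) → [Group K] → Prop) (N : Subgroup G) : Prop :=
  ∃ (H : Subgroup G) (S : Type u) (_ : Group S) (f : H →* S), Surjective f ∧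
    f.ker.map H.subtype = N ∧ T S

/-- if the kernel is maximal no proper quotient of a subgroup has the property `T` -/
theorem not_of_maximal {N : Subgroup G} (hN : ∀ N' : Subgroup G, SecP T N' → N ≤ N' → N' = N)
    {H : Subgroup G} {S : Type u} [Group S] (f : H →* S) (hf : Surjective f)
    (hk : f.ker.map H.subtype = N) (L : Subgroup S) (M : Subgroup L) [M.Normal] (hM : M ≠ ⊥) :
    ¬ T (L ⧸ M) := by
  intro hT
  let g : (L.comap f).map H.subtype →* L ⧸ M := (QuotientGroup.mk' M).comp (secMap f L)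
  have hg : Surjective g := (QuotientGroup.mk'_surjective M).comp (secMap_surjective f L hf)
  have hgm : ∀ (h : H) (hh : f h ∈ L), (⟨f h, hh⟩ : L) ∈ M →
      (h : G) ∈ g.ker.map ((L.comap f).map H.subtype).subtype := by
    intro h hh hm
    refine ⟨⟨(h : G), ⟨h, hh, rfl⟩⟩, ?_, rfl⟩
    have h1 : g ⟨(h : G), ⟨h, hh, rfl⟩⟩ = QuotientGroup.mk' M (secMap f L ⟨(h : G), ⟨h, hh, rfl⟩⟩) :=
      rfl
    change g ⟨(h : G), ⟨h, hh, rfl⟩⟩ = 1
    rw [h1, secMap_mk f L h hh]
    exact (QuotientGroup.eq_one_iff _).mpr hm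
  have hsec : SecP T (g.ker.map ((L.comap f).map H.subtype).subtype) :=
    ⟨_, _, _, g, hg, rfl, hT⟩
  have hle : N ≤ g.ker.map ((L.comap f).map H.subtype).subtype := by
    rw [← hk]
    rintro _ ⟨h, hh, rfl⟩
    have hh' : f h = 1 := hh
    refine hgm h (by rw [hh']; exact one_mem L) ?_
    have : (⟨f h, by rw [hh']; exact one_mem L⟩ : L) = 1 := Subtype.ext hh'
    rw [this]
    exact one_mem M
  have heq := hN _ hsec hle
  apply hM
  rw [Subgroup.eq_bot_iff_forall]
  rintro ⟨s, hs⟩ hm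
  obtain ⟨h, rfl⟩ := hf s
  have h1 := hgm h hs hm
  rw [heq, ← hk] at h1
  obtain ⟨h', hh', hhh⟩ := h1
  have h2 : h' = h := Subtype.ext hhh
  subst h2
  exact Subtype.ext hh'

/-- the property: insoluble and residually torsion-free nilpotent -/
def TN (K : Type u) [Group K] : Prop := RTN K ∧ ¬ Group.IsSolvable K

/-- two commuting nontrivial normal subgroups -/
theorem prime_of_TN {L : Type u} [Group L] (hres : RTN L)
    (hq : ∀ (M : Subgroup L) [M.Normal], M ≠ ⊥ → ¬ TN (L ⧸ M)) (M N : Subgroup L) [M.Normal]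
    [N.Normal] (hM : M ≠ ⊥) (hN : N ≠ ⊥) (hMN : ⁅M, N⁆ = ⊥) : Group.IsSolvable L := by
  set C := Subgroup.centralizer (M : Set L) with hC
  set D := Subgroup.centralizer (C : Set L) with hD
  have hCn : C.Normal := by rw [hC]; infer_instance
  have hDn : D.Normal := by rw [hD]; infer_instance
  have hNC : N ≤ C := by
    rw [Subgroup.commutator_comm] at hMN
    exact Subgroup.commutator_eq_bot_iff_le_centralizer.mp hMN
  have hMD : M ≤ D := by
    rw [hD, Subgroup.le_centralizer_iff]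
  have hC1 : C ≠ ⊥ := fun h => hN (le_bot_iff.mp (h ▸ hNC))
  have hD1 : D ≠ ⊥ := fun h => hM (le_bot_iff.mp (h ▸ hMD))
  have hsC : Group.IsSolvable (L ⧸ C) := by
    by_contra h
    exact hq C hC1 ⟨hres.quot_centralizer M, h⟩
  have hsD : Group.IsSolvable (L ⧸ D) := by
    by_contra h
    exact hq D hD1 ⟨hres.quot_centralizer C, h⟩
  obtain ⟨k, hk⟩ := hsC.solvable
  obtain ⟨l, hl⟩ := hsD.solvable
  rw [← map_derivedSeries_eq (QuotientGroup.mk'_surjective _), Subgroup.map_eq_bot_iff,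
    QuotientGroup.ker_mk'] at hk hl
  refine ⟨⟨max k l + 1, ?_⟩⟩
  rw [derivedSeries_succ, Subgroup.commutator_eq_bot_iff_le_centralizer]
  have h1 : derivedSeries L (max k l) ≤ C := (derivedSeries_antitone L (le_max_left k l)).trans hk
  have h2 : derivedSeries L (max k l) ≤ D := (derivedSeries_antitone L (le_max_right k l)).trans hl
  exact h2.trans (Subgroup.centralizer_le h1)

/-- a nontrivial soluble normal subgroup -/
theorem radical_of_prime {G : Type u} [Group G]
    (hp : ∀ (M N : Subgroup G) [M.Normal] [N.Normal], M ≠ ⊥ → N ≠ ⊥ → ⁅M, N⁆ = ⊥ →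
      Group.IsSolvable G) (A : Subgroup G) [A.Normal] (hA : A ≠ ⊥)
    (hs : Group.IsSolvable A) : Group.IsSolvable G := by
  classical
  obtain ⟨n, hn⟩ := hs.solvable
  have hD : ∀ m, ((derivedSeries A m).map A.subtype).Normal := by
    intro m
    induction m with
    | zero =>
      rw [derivedSeries_zero, ← MonoidHom.range_eq_map, Subgroup.range_subtype]
      infer_instance
    | succ m ih =>
      rw [derivedSeries_succ, Subgroup.map_commutator]
      have := ih
      infer_instance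
  have hex : ∃ m, (derivedSeries A m).map A.subtype = ⊥ := ⟨n, by rw [hn, Subgroup.map_bot]⟩
  have hm := Nat.find_spec hex
  have hmin := fun m' => Nat.find_min hex (m := m')
  generalize Nat.find hex = m at hm hmin
  cases m with
  | zero =>
    rw [derivedSeries_zero, ← MonoidHom.range_eq_map, Subgroup.range_subtype] at hm
    exact absurd hm hA
  | succ m =>
    have hne := hmin m (Nat.lt_succ_self m)
    have := hD m
    rw [derivedSeries_succ, Subgroup.map_commutator] at hm
    exact hp _ _ hne hne hm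

section minimal

variable {Q : Type u} [Group Q]

/-- the hypothesis on `Q` -/
structure MinQ (Q : Type u) [Group Q] : Prop where
  max : ∀ H : Subgroup Q, H.FG
  res : RTN Q
  ins : ¬ Group.IsSolvable Q
  min : ∀ (L : Subgroup Q) (M : Subgroup L) [M.Normal], M ≠ ⊥ → ¬ TN (L ⧸ M)

theorem MinQ.nil_of_sol (h : MinQ Q) (L : Subgroup Q) (hs : Group.IsSolvable L) :
    Group.IsNilpotent L :=
  (h.res.subgroup L).nilpotent (fun K => section_max h.max (MonoidHom.id L) surjective_id K) hs

theorem MinQ.prime (h : MinQ Q) (L : Subgroup Q) (M N : Subgroup L) [M.Normal] [N.Normal]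
    (hM : M ≠ ⊥) (hN : N ≠ ⊥) (hMN : ⁅M, N⁆ = ⊥) : Group.IsNilpotent L :=
  h.nil_of_sol L (prime_of_TN (h.res.subgroup L) (fun M _ => h.min L M) M N hM hN hMN)

/-- normalisers of nontrivial soluble subgroups are nilpotent -/
theorem MinQ.normalizer (h : MinQ Q) (A : Subgroup Q) (hA : A ≠ ⊥) (hs : Group.IsSolvable A) :
    Group.IsNilpotent (Subgroup.normalizer (A : Set Q)) := by
  have hle : A ≤ Subgroup.normalizer (A : Set Q) := Subgroup.le_normalizer
  have hs' : Group.IsSolvable (A.subgroupOf (Subgroup.normalizer (A : Set Q))) :=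
    Group.isSolvable_of_isSolvable_injective
      (f := (Subgroup.subgroupOfEquivOfLe hle).toMonoidHom)
      (Subgroup.subgroupOfEquivOfLe hle).injective
  refine h.nil_of_sol _ (radical_of_prime (fun M N _ _ => prime_of_TN (h.res.subgroup _)
    (fun M _ => h.min _ M) M N) (A.subgroupOf (Subgroup.normalizer (A : Set Q))) ?_ hs')
  rwa [Ne, Subgroup.subgroupOf_eq_bot, disjoint_iff, inf_eq_left.mpr hle]

/-- centralisers of nontrivial elements are nilpotent -/
theorem MinQ.centralizer (h : MinQ Q) (x : Q) (hx : x ≠ 1) :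
    Group.IsNilpotent (Subgroup.centralizer ({x} : Set Q)) := by
  have hcyc : Group.IsSolvable (Subgroup.zpowers x) :=
    Group.isSolvable_of_comm fun a b => Subtype.ext (by
      obtain ⟨_, m, rfl⟩ := a
      obtain ⟨_, n, rfl⟩ := b
      exact (Commute.refl x).zpow_zpow m n)
  have hz : Subgroup.zpowers x ≠ ⊥ := by simpa using hx
  have hle : Subgroup.centralizer ({x} : Set Q) ≤
      Subgroup.normalizer (Subgroup.zpowers x : Set Q) := by
    rw [← Subgroup.centralizer_closure, ← Subgroup.zpowers_eq_closure]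
    exact Subgroup.centralizer_le_normalizer _
  have hn := h.normalizer (Subgroup.zpowers x) hz hcyc
  have hs : Group.IsSolvable (Subgroup.normalizer (Subgroup.zpowers x : Set Q)) := inferInstance
  exact h.nil_of_sol _ (Group.isSolvable_of_isSolvable_injective
    (Subgroup.inclusion_injective hle))

/-- `A` is a maximal nilpotent subgroup -/
def MaxNil (A : Subgroup Q) : Prop :=
  Group.IsNilpotent A ∧ ∀ B : Subgroup Q, Group.IsNilpotent B → A ≤ B → B = A

theorem MinQ.exists_maxNil (h : MinQ Q) (A : Subgroup Q) (hA : Group.IsNilpotent A) :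
    ∃ B : Subgroup Q, A ≤ B ∧ MaxNil B := by
  obtain ⟨B, ⟨hAB, hB⟩, hmax⟩ := exists_max h.max {B | A ≤ B ∧ Group.IsNilpotent B}
    ⟨A, le_rfl, hA⟩
  exact ⟨B, hAB, hB, fun C hC hBC => hmax C ⟨hAB.trans hBC, hC⟩ hBC⟩

/-- a proper subgroup of a nilpotent subgroup is not self-normalising -/
theorem exists_normalizing {A D : Subgroup Q} (hA : Group.IsNilpotent A) (hDA : D ≤ A)
    (hne : D ≠ A) : ∃ a ∈ A, a ∉ D ∧ a ∈ Subgroup.normalizer (D : Set Q) := by
  have hlt : D.subgroupOf A < ⊤ := by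
    rw [lt_top_iff_ne_top, Ne, Subgroup.subgroupOf_eq_top]
    exact fun h => hne (le_antisymm hDA h)
  have h1 := Group.normalizerCondition_of_isNilpotent (G := A) (D.subgroupOf A) hlt
  obtain ⟨a, ha1, ha2⟩ := SetLike.exists_of_lt h1
  refine ⟨a, a.2, fun h => ha2 h, ?_⟩
  rw [Subgroup.mem_normalizer_iff] at ha1 ⊢
  intro d
  constructor
  · intro hd
    exact (ha1 ⟨d, hDA hd⟩).mp hd
  · intro hd
    have h2 : (a : Q) * d * (a : Q)⁻¹ ∈ A := hDA hd
    have h3 : d ∈ A := by
      have := mul_mem (mul_mem (inv_mem a.2) h2) a.2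
      have h4 : (a : Q)⁻¹ * ((a : Q) * d * (a : Q)⁻¹) * a = d := by group
      rwa [h4] at this
    exact (ha1 ⟨d, h3⟩).mpr hd

/-- distinct maximal nilpotent subgroups meet trivially -/
theorem MinQ.inf_eq_bot (h : MinQ Q) (A B : Subgroup Q) (hA : MaxNil A) (hB : MaxNil B)
    (hAB : A ≠ B) : A ⊓ B = ⊥ := by
  by_contra hne
  obtain ⟨D, ⟨hD1, A', B', hA', hB', hAB', hD⟩, hmax⟩ := exists_max h.max
    {D | D ≠ ⊥ ∧ ∃ A B : Subgroup Q, MaxNil A ∧ MaxNil B ∧ A ≠ B ∧ D = A ⊓ B}
    ⟨A ⊓ B, hne, A, B, hA, hB, hAB, rfl⟩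
  have hDA : D ≤ A' := hD ▸ inf_le_left
  have hDB : D ≤ B' := hD ▸ inf_le_right
  have hDA' : D ≠ A' := by
    intro he
    exact hAB' (hA'.2 B' hB'.1 (he ▸ hDB)).symm
  have hDB' : D ≠ B' := by
    intro he
    exact hAB' (hB'.2 A' hA'.1 (he ▸ hDA))
  have hAn := hA'.1
  have hDnil : Group.IsNilpotent D := by
    have h1 : Group.IsNilpotent (D.subgroupOf A') := inferInstance
    exact Group.nilpotent_of_mulEquiv (Subgroup.subgroupOfEquivOfLe hDA)
  have hNnil := h.normalizer D hD1 inferInstance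
  obtain ⟨E, hNE, hE⟩ := h.exists_maxNil _ hNnil
  have key : ∀ C : Subgroup Q, MaxNil C → D ≤ C → D ≠ C → E = C := by
    intro C hC hDC hDC'
    by_contra hEC
    obtain ⟨c, hcC, hcD, hcN⟩ := exists_normalizing hC.1 hDC hDC'
    have h1 : D ≤ E ⊓ C := le_inf (Subgroup.le_normalizer.trans hNE) hDC
    have h2 := hmax (E ⊓ C) ⟨fun h0 => hD1 (le_bot_iff.mp (h0 ▸ h1)), E, C, hE, hC, hEC, rfl⟩ h1
    exact hcD (h2 ▸ (⟨hNE hcN, hcC⟩ : c ∈ E ⊓ C))
  exact hAB' ((key A' hA' hDA hDA').symm.trans (key B' hB' hDB hDB'))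

/-- conjugates of maximal nilpotent subgroups -/
theorem MaxNil.conj {A : Subgroup Q} (hA : MaxNil A) (g : Q) :
    MaxNil (A.map (MulAut.conj g).toMonoidHom) := by
  refine ⟨?_, ?_⟩
  · have hAn := hA.1
    exact Group.nilpotent_of_mulEquiv (A.equivMapOfInjective (MulAut.conj g).toMonoidHom
      (MulAut.conj g).injective)
  · intro B hB hAB
    have hBn := hB
    have h1 : A ≤ B.map (MulAut.conj g⁻¹).toMonoidHom := by
      intro a ha
      refine ⟨g * a * g⁻¹, hAB ⟨a, ha, rfl⟩, ?_⟩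
      change g⁻¹ * (g * a * g⁻¹) * g⁻¹⁻¹ = a
      group
    have h2 : Group.IsNilpotent (B.map (MulAut.conj g⁻¹).toMonoidHom) :=
      Group.nilpotent_of_mulEquiv (B.equivMapOfInjective (MulAut.conj g⁻¹).toMonoidHom
        (MulAut.conj g⁻¹).injective)
    have h3 := hA.2 _ h2 h1
    refine le_antisymm ?_ hAB
    intro b hb
    have h4 : g⁻¹ * b * g ∈ A := by
      rw [← h3]
      refine ⟨b, hb, ?_⟩
      change g⁻¹ * b * g⁻¹⁻¹ = g⁻¹ * b * g
      group
    refine ⟨g⁻¹ * b * g, h4, ?_⟩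
    change g * (g⁻¹ * b * g) * g⁻¹ = b
    group

/-- maximal nilpotent subgroups are malnormal -/
theorem MinQ.malnormal (h : MinQ Q) (A : Subgroup Q) (hA : MaxNil A) (g : Q) (hg : g ∉ A) :
    A ⊓ A.map (MulAut.conj g).toMonoidHom = ⊥ := by
  by_cases hbot : A = ⊥
  · rw [hbot, bot_inf_eq]
  have hgA : A.map (MulAut.conj g).toMonoidHom ≠ A := by
    intro he
    apply hg
    have hAn := hA.1
    have hNnil := h.normalizer A hbot inferInstance
    have h1 := hA.2 _ hNnil Subgroup.le_normalizer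
    rw [← h1, Subgroup.mem_normalizer_iff_map_conj_eq]
    exact he
  exact h.inf_eq_bot _ _ hA (hA.conj g) hgA.symm

/-- a two-generator insoluble subgroup -/
theorem MinQ.two_generator (h : MinQ Q) :
    ∃ x y : Q, ¬ Group.IsSolvable (Subgroup.closure ({x, y} : Set Q)) := by
  obtain ⟨A, -, hA⟩ := h.exists_maxNil ⊥ inferInstance
  have hAn := hA.1
  have hbot : A ≠ ⊥ := by
    intro hb
    apply h.ins
    have hone : ∀ x : Q, x = 1 := by
      intro x
      have hc : Group.IsNilpotent (Subgroup.zpowers x) :=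
        h.nil_of_sol _ (Group.isSolvable_of_comm fun a b => Subtype.ext (by
          obtain ⟨_, m, rfl⟩ := a
          obtain ⟨_, n, rfl⟩ := b
          exact (Commute.refl x).zpow_zpow m n))
      have h1 := hA.2 _ hc (by rw [hb]; exact bot_le)
      have hx : x ∈ Subgroup.zpowers x := Subgroup.mem_zpowers x
      rw [h1, hb] at hx
      exact Subgroup.mem_bot.mp hx
    exact ⟨⟨0, (Subgroup.eq_bot_iff_forall _).mpr fun x _ => hone x⟩⟩
  have htop : A ≠ ⊤ := by
    intro ht
    apply h.ins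
    have h1 : Group.IsSolvable A := inferInstance
    rw [ht] at h1
    exact Group.isSolvable_of_surjective (f := (⊤ : Subgroup Q).subtype)
      (fun g => ⟨⟨g, trivial⟩, rfl⟩)
  obtain ⟨g, hg⟩ : ∃ g, g ∉ A := by
    by_contra hc
    push Not at hc
    exact htop ((Subgroup.eq_top_iff' A).mpr hc)
  obtain ⟨x, hxA, hx1⟩ : ∃ x ∈ A, x ≠ 1 := by
    by_contra hc
    push Not at hc
    exact hbot ((Subgroup.eq_bot_iff_forall A).mpr hc)
  refine ⟨x, g * x * g⁻¹, fun hs => ?_⟩
  obtain ⟨C, hLC, hC⟩ := h.exists_maxNil _ (h.nil_of_sol _ hs)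
  have hxC : x ∈ C := hLC (Subgroup.subset_closure (by simp))
  have hyC : g * x * g⁻¹ ∈ C := hLC (Subgroup.subset_closure (by simp))
  have h1 : C = A := by
    by_contra hne
    have h2 := h.inf_eq_bot C A hC hA hne
    exact hx1 (Subgroup.mem_bot.mp (h2 ▸ (⟨hxC, hxA⟩ : x ∈ C ⊓ A)))
  have h3 : g * x * g⁻¹ ∈ A ⊓ A.map (MulAut.conj g).toMonoidHom :=
    ⟨h1 ▸ hyC, ⟨x, hxA, rfl⟩⟩
  rw [h.malnormal A hA g hg, Subgroup.mem_bot] at h3
  exact hx1 (conj_eq_one_iff.mp h3)

end minimal

/-- the restriction over `L` has the same kernel -/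
theorem ker_secMap {H : Subgroup G} {S : Type u} [Group S] (f : H →* S) (L : Subgroup S) :
    (secMap f L).ker.map ((L.comap f).map H.subtype).subtype = f.ker.map H.subtype := by
  ext z
  constructor
  · rintro ⟨⟨_, ⟨h, hh, rfl⟩⟩, hk, rfl⟩
    refine ⟨h, ?_, rfl⟩
    have hk' : secMap f L ⟨(h : G), ⟨h, hh, rfl⟩⟩ = 1 := hk
    rw [secMap_mk f L h hh] at hk'
    exact congrArg Subtype.val hk'
  · rintro ⟨h, hh, rfl⟩
    have hh' : f h = 1 := hh
    have hL : f h ∈ L := by rw [hh']; exact one_mem L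
    refine ⟨⟨(h : G), ⟨h, hL, rfl⟩⟩, ?_, rfl⟩
    change secMap f L ⟨(h : G), ⟨h, hL, rfl⟩⟩ = 1
    rw [secMap_mk f L h hL]
    exact Subtype.ext hh'

/-- the minimal section, two-generated -/
theorem exists_MinQ_of_SecP (hmax : ∀ H : Subgroup G, H.FG) (hex : ∃ N : Subgroup G, SecP TN N) :
    ∃ (H : Subgroup G) (Q : Type u) (_ : Group Q) (f : H →* Q), Surjective f ∧ MinQ Q ∧
      ∃ x y : Q, Subgroup.closure ({x, y} : Set Q) = ⊤ := by
  obtain ⟨N, ⟨H, Q, instQ, f, hf, hk, hres, hins⟩, hN⟩ := exists_max hmax {N | SecP TN N} hex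
  have hQ : MinQ Q := ⟨section_max hmax f hf, hres, hins,
    fun L M _ hM => not_of_maximal hN f hf hk L M hM⟩
  obtain ⟨x, y, hxy⟩ := hQ.two_generator
  set L := Subgroup.closure ({x, y} : Set Q) with hL
  have hx : x ∈ L := Subgroup.subset_closure (by simp)
  have hy : y ∈ L := Subgroup.subset_closure (by simp)
  have hf' := secMap_surjective f L hf
  have hk' : (secMap f L).ker.map ((L.comap f).map H.subtype).subtype = N := by
    rw [ker_secMap, hk]
  refine ⟨_, L, inferInstance, secMap f L, hf', ⟨section_max hmax _ hf', hres.subgroup L, hxy,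
    fun K M _ hM => not_of_maximal hN (secMap f L) hf' hk' K M hM⟩, ⟨x, hx⟩, ⟨y, hy⟩, ?_⟩
  rw [← Subgroup.map_subtype_inj, MonoidHom.map_closure, ← MonoidHom.range_eq_map,
    Subgroup.range_subtype, Set.image_pair]
  exact hL.symm

end Pool.Agent.RSN
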