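import Pool.Agent.RSN.Basic

set_option autoImplicit false

/-!
Sections of a group with the maximal condition, and the choice of a maximal kernel.
-/

namespace Pool.Agent.RSN

open Function

universe u

variable {G : Type u} [Group G]

/-- in a group all of whose subgroups are finitely generated every nonempty set of subgroups has a
maximal element -/
theorem exists_max (hmax : ∀ H : Subgroup G, H.FG) (S : Set (Subgroup G)) (hS : S.Nonempty) :
    ∃ N ∈ S, ∀ N' ∈ S, N ≤ N' → N' = N := by
  obtain ⟨x, hx⟩ := hS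
  obtain ⟨m, -, hm⟩ := zorn_le_nonempty₀ S (by
    intro c hc hch y hy
    obtain ⟨T, hT⟩ := hmax (sSup c)
    have hdir : DirectedOn (· ≤ ·) c := hch.directedOn
    have hfin : ∀ F : Finset G, (∀ g ∈ F, g ∈ sSup c) → ∃ K ∈ c, ∀ g ∈ F, g ∈ K := by
      intro F
      classical
      induction F using Finset.induction_on with
      | empty => exact fun _ => ⟨y, hy, by simp⟩
      | insert a F ha ih =>
        intro h
        obtain ⟨K, hK, hKF⟩ := ih fun g hg => h g (Finset.mem_insert_of_mem hg)
        have h1 := h a (Finset.mem_insert_self a F)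
        rw [Subgroup.mem_sSup_of_directedOn ⟨y, hy⟩ hdir] at h1
        obtain ⟨K', hK', haK'⟩ := h1
        obtain ⟨K'', hK'', h2, h3⟩ := hdir K hK K' hK'
        refine ⟨K'', hK'', fun g hg => ?_⟩
        rcases Finset.mem_insert.mp hg with rfl | hg
        · exact h3 haK'
        · exact h2 (hKF g hg)
    obtain ⟨K, hK, hKT⟩ := hfin T fun g hg => by
      rw [← hT]
      exact Subgroup.subset_closure hg
    refine ⟨K, hc hK, fun z hz => (le_sSup hz).trans ?_⟩
    rw [← hT, Subgroup.closure_le]
    exact fun g hg => hKT g hg) x hx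
  exact ⟨m, hm.prop, fun N' hN' hle => le_antisymm (hm.le_of_ge hN' hle) hle⟩

/-- `N` is the kernel of a homomorphism of a subgroup onto a residually soluble insoluble group -/
def Sec (N : Subgroup G) : Prop :=
  ∃ (H : Subgroup G) (S : Type u) (_ : Group S) (f : H →* S), Surjective f ∧
    f.ker.map H.subtype = N ∧ ResSol S ∧ ¬ Group.IsSolvable S

section sec

variable {H : Subgroup G} {S : Type u} [Group S] (f : H →* S) (L : Subgroup S)

/-- the restriction of `f` over a subgroup `L` of the target, as a map from a subgroup of `G` -/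
noncomputable def secMap : (L.comap f).map H.subtype →* L :=
  (f.subgroupComap L).comp
    ((L.comap f).equivMapOfInjective H.subtype H.subtype_injective).symm.toMonoidHom

theorem secMap_mk (h : H) (hh : f h ∈ L) :
    secMap f L ⟨(h : G), ⟨h, hh, rfl⟩⟩ = ⟨f h, hh⟩ := by
  have h1 : ((L.comap f).equivMapOfInjective H.subtype H.subtype_injective).symm
      ⟨(h : G), ⟨h, hh, rfl⟩⟩ = ⟨h, hh⟩ := by
    rw [MulEquiv.symm_apply_eq]
    rfl
  have h2 : secMap f L ⟨(h : G), ⟨h, hh, rfl⟩⟩ = f.subgroupComap L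
      (((L.comap f).equivMapOfInjective H.subtype H.subtype_injective).symm
      ⟨(h : G), ⟨h, hh, rfl⟩⟩) := rfl
  rw [h2, h1]
  rfl

theorem secMap_surjective (hf : Surjective f) : Surjective (secMap f L) := by
  rintro ⟨s, hs⟩
  obtain ⟨h, rfl⟩ := hf s
  exact ⟨_, secMap_mk f L h hs⟩

end sec

/-- sections inherit the maximal condition -/
theorem section_max (hmax : ∀ H : Subgroup G, H.FG) {H : Subgroup G} {S : Type u} [Group S]
    (f : H →* S) (hf : Surjective f) (L : Subgroup S) : L.FG := by
  rw [← Group.fg_iff_subgroup_fg]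
  have : Group.FG ((L.comap f).map H.subtype) := (Group.fg_iff_subgroup_fg _).mpr (hmax _)
  exact Group.fg_of_surjective (secMap_surjective f L hf)

/-- a maximal kernel gives a group all of whose subgroups satisfy `JS` -/
theorem JS_of_maximal {N : Subgroup G} (hN : ∀ N' : Subgroup G, Sec N' → N ≤ N' → N' = N)
    {H : Subgroup G} {S : Type u} [Group S] (f : H →* S) (hf : Surjective f)
    (hk : f.ker.map H.subtype = N) (L : Subgroup S) : JS L := by
  intro M _ hM hres
  by_contra hns
  let g : (L.comap f).map H.subtype →* L ⧸ M := (QuotientGroup.mk' M).comp (secMap f L)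
  have hg : Surjective g := (QuotientGroup.mk'_surjective M).comp (secMap_surjective f L hf)
  have hgm : ∀ (h : H) (hh : f h ∈ L), (⟨f h, hh⟩ : L) ∈ M →
      (h : G) ∈ g.ker.map ((L.comap f).map H.subtype).subtype := by
    intro h hh hm
    refine ⟨⟨(h : G), ⟨h, hh, rfl⟩⟩, ?_, rfl⟩
    have h1 : g ⟨(h : G), ⟨h, hh, rfl⟩⟩ = QuotientGroup.mk' M (secMap f L ⟨(h : G), ⟨h, hh, rfl⟩⟩) :=
      rfl
    change g ⟨(h : G), ⟨h, hh, rfl⟩⟩ = 1
    rw [h1, secMap_mk f L h hh]
    exact (QuotientGroup.eq_one_iff _).mpr hm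
  have hsec : Sec (g.ker.map ((L.comap f).map H.subtype).subtype) :=
    ⟨_, _, _, g, hg, rfl, hres, hns⟩
  have hle : N ≤ g.ker.map ((L.comap f).map H.subtype).subtype := by
    rw [← hk]
    rintro _ ⟨h, hh, rfl⟩
    have hh' : f h = 1 := hh
    refine hgm h (by rw [hh']; exact one_mem L) ?_
    have : (⟨f h, by rw [hh']; exact one_mem L⟩ : L) = 1 := Subtype.ext hh'
    rw [this]
    exact one_mem M
  have heq := hN _ hsec hle
  apply hM
  rw [Subgroup.eq_bot_iff_forall]
  rintro ⟨s, hs⟩ hm
  obtain ⟨h, rfl⟩ := hf s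
  have h1 := hgm h hs hm
  rw [heq, ← hk] at h1
  obtain ⟨h', hh', hhh⟩ := h1
  have h2 : h' = h := Subtype.ext hhh
  subst h2
  exact Subtype.ext hh'

end Pool.Agent.RSN
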